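import Pool.Agent.Lib.MP_5bcdfb_an.TS.Spec

/-!
# MP_5bcdfb: vector valued valuations on star bodies. Definitions and exact statements

THEOREM (`Results/MP_5bcdfb_an/VectorValued.lean`). (1) If the normed space `X` has the Schur property then every continuous `X`-valued valuation
on `C(K)^+` (`K` compact metric) is uniformly continuous on bounded sets. (2) If there are `1 < p < ∞` and a bounded operator `T : ℓ_p → X` with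
`inf ‖T e_k‖ > 0` (`X` contains `ℓ_p` or `c_0`, or `L_1`) then some continuous valuation `C(S^(n-1))^+ → X`, `n ≥ 2`, is not uniformly continuous on
bounded sets. (3) For `X = ℓ_p`, `1 ≤ p < ∞`: all continuous valuations are uniformly continuous on bounded sets iff `p = 1`.

Module `XXX` is the file `VV/XXX.lean` with `theorem specXXX (hYYY : SpecYYY) .. : SpecXXX` (the modules named after USES, in this
order) in the namespace `Pool.Agent.Lib.MP5bcdfb.VV`, own lemmas in the namespace `XXXM`. Every module imports only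
`Pool.Agent.Lib.MP_5bcdfb_an.VV.Spec`. All proofs below are complete. (Idea of (2), (3): helper74, helper89.)

IDEA. `V_k(f) = ∫_0^1 (1 - |f(γ s) - h_k(s)| / w_k)^+ ds` with a fast triangular wave `h_k` (frequency `D^((k+1)^2)`) and `w_k = D^(-(k+1))`. For `j < k` the tubes around
`h_j` and `h_k` meet in measure `≤ 6 w_j`, so `#{k : V_k(f) > 2^(-i)} ≤ 2^(i+2)` for ALL `f`; and `sup_k |V_k(g) - V_k(f)| → 0` for `g → f`. So `V = (V_k)` is continuous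
into `ℓ_p`, `p > 1`, but `V(h_k) - V(h_k + 2 w_k)` is `e_k` up to `16/D`.
-/

set_option autoImplicit false

namespace Pool.Agent.Lib.MP5bcdfb.VV

open MeasureTheory Set Filter Topology
open Pool.Agent.Lib.MP5bcdfb.TS

noncomputable section

/-! ## Definitions -/

/-- `X`-valued valuations on `C(K)^+` -/
def ValX {K : Type} [TopologicalSpace K] {X : Type} [NormedAddCommGroup X] (V : C(K, ℝ) → X) : Prop :=
  ∀ f g : C(K, ℝ), 0 ≤ f → 0 ≤ g → V f + V g = V (f ⊔ g) + V (f ⊓ g)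

/-- continuity on `C(K)^+` with the sup norm -/
def ContX {K : Type} [TopologicalSpace K] [CompactSpace K] {X : Type} [NormedAddCommGroup X] (V : C(K, ℝ) → X) : Prop :=
  ∀ f : C(K, ℝ), 0 ≤ f → ∀ ε : ℝ, 0 < ε → ∃ r : ℝ, 0 < r ∧ ∀ g : C(K, ℝ), 0 ≤ g → ‖g - f‖ < r → ‖V g - V f‖ < ε

/-- uniform continuity on bounded sets -/
def UCX {K : Type} [TopologicalSpace K] [CompactSpace K] {X : Type} [NormedAddCommGroup X] (V : C(K, ℝ) → X) : Prop :=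
  ∀ m ε : ℝ, 0 < m → 0 < ε → ∃ δ : ℝ, 0 < δ ∧ ∀ f g : C(K, ℝ), 0 ≤ f → 0 ≤ g → ‖f‖ ≤ m → ‖g‖ ≤ m →
    ‖f - g‖ < δ → ‖V f - V g‖ ≤ ε

/-- the Schur property: weakly null sequences are norm null -/
def Schur (X : Type) [NormedAddCommGroup X] [NormedSpace ℝ X] : Prop :=
  ∀ y : ℕ → X, (∀ φ : X →L[ℝ] ℝ, Tendsto (fun n => φ (y n)) atTop (𝓝 0)) → Tendsto y atTop (𝓝 0)

/-- the distance to the even integers -/
def tri (x : ℝ) : ℝ := Metric.infDist x (Set.range fun n : ℤ => 2 * (n : ℝ))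

/-- the triangular wave of frequency `D^((k+1)^2)` -/
def hw (D k : ℕ) (s : ℝ) : ℝ := tri ((D : ℝ) ^ ((k + 1) ^ 2) * s)

/-- the scalar functionals `V_k`, on functions on `[0, 1]` -/
def Vu (D k : ℕ) (u : ℝ → ℝ) : ℝ := ∫ s in (0 : ℝ)..1, max 0 (1 - |u s - hw D k s| * (D : ℝ) ^ (k + 1))

/-! ## Statements -/

/-- **TRI** (80 lines). The triangular wave. (`Metric.infDist` is 1-Lipschitz; the nearest even integer to `x ∈ [2i, 2i+1]` is `2i`, to `x ∈ [2i+1, 2i+2]` it is `2i+2`.) -/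
def SpecTRI : Prop := (∀ x y : ℝ, |tri x - tri y| ≤ |x - y|) ∧ (∀ x : ℝ, 0 ≤ tri x ∧ tri x ≤ 1) ∧
  (∀ (i : ℤ) (x : ℝ), 2 * (i : ℝ) ≤ x → x ≤ 2 * (i : ℝ) + 1 → tri x = x - 2 * (i : ℝ)) ∧
  ∀ (i : ℤ) (x : ℝ), 2 * (i : ℝ) + 1 ≤ x → x ≤ 2 * (i : ℝ) + 2 → tri x = 2 * (i : ℝ) + 2 - x

/-- **VOL** (150 lines), USES TRI. The wave is uniformly distributed at its scale.
PROOF. `M = D^((k+1)^2) ≥ 1`. On `I_i = [i/M, (i+1)/M]`, `0 ≤ i < M`, `|u - u(i/M)| ≤ b`, so the set within `I_i` is contained in `{|hw - u(i/M)| ≤ a + b}`, and as `hw s = M s - i` (`i` even)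
or `i + 1 - M s` (`i` odd) on `I_i` this is contained in an interval of length `2 (a + b)/M`. Sum over `M` intervals. -/
def SpecVOL : Prop := ∀ (D k : ℕ) (u : ℝ → ℝ) (a b : ℝ), 2 ≤ D → Continuous u → 0 ≤ a → 0 ≤ b →
  (∀ s s' : ℝ, 0 ≤ s → s ≤ 1 → 0 ≤ s' → s' ≤ 1 → |s - s'| ≤ 1 / (D : ℝ) ^ ((k + 1) ^ 2) → |u s - u s'| ≤ b) →
  (volume {s : ℝ | s ∈ Icc (0 : ℝ) 1 ∧ |u s - hw D k s| ≤ a}).toReal ≤ 2 * (a + b)

/-- **BAS** (100 lines), USES TRI. Simple facts: `hw` is continuous (and `D^((k+1)^2)`-Lipschitz, in `[0, 1]`), the integrand is in `[0, 1]` and vanishes unless `|u - hw| ≤ D^(-(k+1))`, and is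
`D^(k+1)`-Lipschitz in `u`. -/
def SpecBAS : Prop := ∀ (D k : ℕ), 2 ≤ D → Continuous (hw D k) ∧ (∀ s, 0 ≤ hw D k s ∧ hw D k s ≤ 1) ∧
  (∀ s s', |hw D k s - hw D k s'| ≤ (D : ℝ) ^ ((k + 1) ^ 2) * |s - s'|) ∧
  (∀ u : ℝ → ℝ, Continuous u → 0 ≤ Vu D k u ∧ Vu D k u ≤ 1 ∧
    Vu D k u ≤ (volume {s : ℝ | s ∈ Icc (0 : ℝ) 1 ∧ |u s - hw D k s| ≤ 1 / (D : ℝ) ^ (k + 1)}).toReal) ∧
  ∀ (u v : ℝ → ℝ) (δ : ℝ), Continuous u → Continuous v → (∀ s, 0 ≤ s → s ≤ 1 → |u s - v s| ≤ δ) →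
    |Vu D k u - Vu D k v| ≤ (D : ℝ) ^ (k + 1) * δ

/-- **OVL** (60 lines), USES VOL, BAS. Two waves are rarely close: VOL for `u = hw D j`, `a = 2 D^(-(j+1))`, `b = D^((j+1)^2 - (k+1)^2) ≤ D^(-(j+1))`. -/
def SpecOVL : Prop := ∀ (D j k : ℕ), 2 ≤ D → j < k →
  (volume {s : ℝ | s ∈ Icc (0 : ℝ) 1 ∧ |hw D j s - hw D k s| ≤ 2 / (D : ℝ) ^ (j + 1)}).toReal ≤ 6 / (D : ℝ) ^ (j + 1)

/-- **WKL** (180 lines), USES BAS, OVL. Weak `ℓ_1` bound for all `u`.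
PROOF. Let `T` be a finite set of indices `k ≥ i` with `V_k(u) > 2^(-i)`, `N = #T`, `A_k = {s ∈ [0,1] : |u - hw D k| ≤ D^(-(k+1))}`. Pointwise `∑_(k∈T) 1_(A_k) ≤ 1 + ∑_(j<k, in T) 1_(A_j ∩ A_k)`
(`m ≤ 1 + m(m-1)/2` for natural `m`), and `A_j ∩ A_k ⊆ {|hw j - hw k| ≤ 2 D^(-(j+1))}`. So `N 2^(-i) ≤ 1 + N ∑_(j∈T) 6 D^(-(j+1)) ≤ 1 + 12 N D^(-(i+1)) ≤ 1 + N 2^(-i)/2` (`D ≥ 24`), `N ≤ 2^(i+1)`.
With the indices `< i`: at most `i + 2^(i+1) ≤ 2^(i+2)` (every finite subset of the set has at most so many elements, hence finite). -/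
def SpecWKL : Prop := ∀ (D i : ℕ) (u : ℝ → ℝ), 24 ≤ D → Continuous u →
  {k : ℕ | (1 / 2 : ℝ) ^ i < Vu D k u}.Finite ∧ {k : ℕ | (1 / 2 : ℝ) ^ i < Vu D k u}.ncard ≤ 2 ^ (i + 2)

/-- **PWR** (130 lines). Interpolation between weak `ℓ_1` and `ℓ_∞`.
PROOF. For a finite set `S` of indices sort the `k` with `a k > 0` by `i` with `2^(-(i+1)) < a k ≤ 2^(-i)`; such `i` have `2^(-i) < 2 τ`, and there are at most `2^(i+4)` such `k`. So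
`∑_S a^p ≤ ∑_(i : 2^(-i) < 2τ) 2^(i+4) 2^(-ip) ≤ 16 (2 τ)^(p-1)/(1 - 2^(-(p-1)))`. -/
def SpecPWR : Prop := ∀ p : ℝ, 1 < p → ∃ C : ℝ, 0 < C ∧ ∀ (a : ℕ → ℝ) (τ : ℝ), 0 < τ → τ ≤ 1 → (∀ k, 0 ≤ a k ∧ a k ≤ τ) →
  (∀ i : ℕ, {k : ℕ | (1 / 2 : ℝ) ^ i < a k}.Finite ∧ {k : ℕ | (1 / 2 : ℝ) ^ i < a k}.ncard ≤ 2 ^ (i + 3)) →
  Summable (fun k => a k ^ p) ∧ ∑' k, a k ^ p ≤ C * τ ^ (p - 1)

/-- **SML** (120 lines), USES VOL, BAS. All coordinates change little.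
PROOF. `u` is uniformly continuous on `[0, 1]`: for `k ≥ k₀` `|u s - u s'| ≤ ε/8` for `|s - s'| ≤ D^(-(k+1)^2)`, and `D^(-(k+1)) ≤ ε/8`. If `r ≤ ε/8`, both `V_k(u)` and `V_k(v)` are at most
`vol {|u - hw| ≤ D^(-(k+1)) + r} ≤ 2 (ε/8 + ε/8 + ε/8) ≤ ε` for `k ≥ k₀`. For `k < k₀`: `D^(k+1) r ≤ D^(k₀) r ≤ ε`. -/
def SpecSML : Prop := ∀ (D : ℕ) (u : ℝ → ℝ) (ε : ℝ), 2 ≤ D → Continuous u → 0 < ε → ∃ r : ℝ, 0 < r ∧ ∀ v : ℝ → ℝ, Continuous v →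
  (∀ s, 0 ≤ s → s ≤ 1 → |v s - u s| ≤ r) → ∀ k : ℕ, |Vu D k v - Vu D k u| ≤ ε

/-- **CNS** (160 lines), USES BAS, WKL, PWR, SML. The valuation into `ℓ_p`.
PROOF. `V f = (Vu D k (f ∘ γ))_k` is in `ℓ_p` by WKL and PWR (`τ = 1`). Valuation: for every `s` and `φ(x) = max 0 (1 - |x - hw s| D^(k+1))`: `φ(x) + φ(y) = φ(max x y) + φ(min x y)`. Continuity at `f`:
`a_k = |V_k(g) - V_k(f)| ≤ ε` for all `k` by SML, `{a_k > 2^(-i)} ⊆ {V_k(f) > 2^(-i)} ∪ {V_k(g) > 2^(-i)}` (both numbers are `≥ 0`), so `‖V g - V f‖^p ≤ C ε^(p-1)` by PWR (`lp.norm_eq_tsum_rpow`). -/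
def SpecCNS : Prop := ∀ (K : Type) [MetricSpace K] [CompactSpace K] (γ : ℝ → K), Continuous γ → ∀ (D : ℕ), 24 ≤ D →
  ∀ (p : ENNReal) [Fact (1 ≤ p)], 1 < p → p ≠ ⊤ → ∃ V : C(K, ℝ) → lp (fun _ : ℕ => ℝ) p,
    (∀ (f : C(K, ℝ)) (k : ℕ), V f k = Vu D k (fun s => f (γ s))) ∧ ValX V ∧ ContX V

/-- **RES** (150 lines), USES VOL, BAS. Resonance.
PROOF. `w_k = D^(-(k+1))`, `u = hw D k`, `v = u + 2 w_k`. `V_k(u) = 1`, `V_k(v) = 0` (`1 - 2 ≤ 0`). `j < k`: `|V_j(u) - V_j(v)| ≤ D^(j+1) 2 w_k = 2 D^(-(k-j))`, sum `≤ 4/D`. `j > k`: `0 ≤ V_j(u), V_j(v) ≤ 2 (w_j + D^((k+1)^2 - (j+1)^2)) ≤ 4 w_j`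
(VOL with `a = w_j`), sum `≤ 8 D^(-(k+2)) ≤ 8/D^2`. -/
def SpecRES : Prop := ∀ (D k : ℕ), 24 ≤ D → Vu D k (hw D k) = 1 ∧ Vu D k (fun s => hw D k s + 2 / (D : ℝ) ^ (k + 1)) = 0 ∧
  ∀ N : ℕ, ∑ j ∈ (Finset.range N).erase k, |Vu D j (hw D k) - Vu D j (fun s => hw D k s + 2 / (D : ℝ) ^ (k + 1))| ≤ 16 / (D : ℝ)

/-- **GEN** (150 lines), USES TRI, BAS, CNS, RES. The negative theorem.
PROOF. Choose `D ≥ 24` with `‖T‖ 16/D ≤ c₀/2`, `V` from CNS, `V' = T ∘ V` (valuation, continuous). `F_k(x) = tri (D^((k+1)^2) c(x))`, `G_k = F_k + 2 D^(-(k+1))`: in `C(K)^+`, norms `≤ 2`,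
`F_k(γ s) = hw D k s` on `[0, 1]` (so `Vu D j` of both functions agree, the integral is over `[0, 1]`), `‖F_k - G_k‖ → 0`. `V F_k - V G_k = e_k + R`, `‖R‖ ≤ ∑ |R_j| ≤ 16/D` (RES, all `N`; finite sums of `R_j e_j` converge to `R`,
or `‖R‖_p ≤ ‖R‖_1`). So `‖V' F_k - V' G_k‖ ≥ c₀ - ‖T‖ 16/D ≥ c₀/2` for all `k`: `UCX` fails for `m = 2`, `ε = c₀/4`. -/
def SpecGEN : Prop := ∀ (K : Type) [MetricSpace K] [CompactSpace K] (γ : ℝ → K) (c : C(K, ℝ)), Continuous γ → (∀ s, 0 ≤ s → s ≤ 1 → c (γ s) = s) →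
  ∀ (p : ENNReal) [Fact (1 ≤ p)], 1 < p → p ≠ ⊤ → ∀ (X : Type) [NormedAddCommGroup X] [NormedSpace ℝ X] (T : lp (fun _ : ℕ => ℝ) p →L[ℝ] X)
  (c₀ : ℝ), 0 < c₀ → (∀ k : ℕ, c₀ ≤ ‖T (lp.single p k (1 : ℝ))‖) → ∃ V : C(K, ℝ) → X, ValX V ∧ ContX V ∧ ¬ UCX V

/-- **SCV** (80 lines), USES the scalar theorem `TS.SpecFWD` (proved: `TS.allFWD`). The positive theorem.
PROOF. Suppose `f_j, g_j ≥ 0`, norms `≤ m`, `‖f_j - g_j‖ < 1/(j+1)`, `‖V f_j - V g_j‖ > ε`. For `φ ∈ X*` `φ ∘ V` is a scalar continuous valuation, so `UCB (φ ∘ V)` by `SpecFWD` with `D = {f | 0 ≤ f}` (`borel K`; `Test D`: `f = a`, `{a = a} = univ`), and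
`φ (V f_j - V g_j) → 0`. Schur: `V f_j - V g_j → 0`, a contradiction. -/
def SpecSCV : Prop := ∀ (K : Type) [MetricSpace K] [CompactSpace K] (X : Type) [NormedAddCommGroup X] [NormedSpace ℝ X], Schur X →
  ∀ V : C(K, ℝ) → X, ValX V → ContX V → UCX V

/-- **SL1** (160 lines). Schur's theorem for `ℓ_1`.
PROOF. If not, a subsequence has `‖y_n‖ ≥ ε`. The coordinates tend to `0`. Choose `n_1 < n_2 < ..` and `0 = N_0 < N_1 < ..` with `∑_(j < N_(k-1)) |y_(n_k)(j)| ≤ ε/8` and `∑_(j ≥ N_k) |y_(n_k)(j)| ≤ ε/8`. Let `θ(j)` be the sign of `y_(n_k)(j)` for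
`N_(k-1) ≤ j < N_k`, `φ(y) = ∑ θ(j) y(j)`, a bounded functional: `φ(y_(n_k)) ≥ ‖y_(n_k)‖ - 2 (ε/8 + ε/8) ≥ ε/2` for all `k`. -/
def SpecSL1 : Prop := Schur (lp (fun _ : ℕ => ℝ) 1)

/-- **SPH** (80 lines). An arc on the sphere: `c(x) = x_0`, `γ(s) = (s', √(1 - s'²), 0, …)` with `s' = max 0 (min 1 s)`. -/
def SpecSPH : Prop := ∀ n : ℕ, 2 ≤ n → ∃ (γ : ℝ → Metric.sphere (0 : EuclideanSpace ℝ (Fin n)) 1)
  (c : C(Metric.sphere (0 : EuclideanSpace ℝ (Fin n)) 1, ℝ)), Continuous γ ∧ ∀ s, 0 ≤ s → s ≤ 1 → c (γ s) = s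

end

end Pool.Agent.Lib.MP5bcdfb.VV
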