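import Pool.Agent.Lib.MP_5bcdfb_an.VV.Spec

/-!
# MP_5bcdfb: simple facts about the wave functionals (BAS)
-/

set_option autoImplicit false

namespace Pool.Agent.Lib.MP5bcdfb.VV

open MeasureTheory Set Filter Topology
open Pool.Agent.Lib.MP5bcdfb.TS

noncomputable section

namespace BASM

lemma cont_hw (D k : ℕ) : Continuous (hw D k) := by
  unfold hw tri
  exact (Metric.continuous_infDist_pt _).comp (continuous_const.mul continuous_id)

/-- the integrand -/
def ig (D k : ℕ) (u : ℝ → ℝ) (s : ℝ) : ℝ := max 0 (1 - |u s - hw D k s| * (D : ℝ) ^ (k + 1))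

lemma cont_ig (D k : ℕ) {u : ℝ → ℝ} (hu : Continuous u) : Continuous (ig D k u) := by
  unfold ig
  exact continuous_const.max
    (continuous_const.sub ((hu.sub (cont_hw D k)).abs.mul continuous_const))

lemma Vu_eq (D k : ℕ) (u : ℝ → ℝ) : Vu D k u = ∫ s in (0 : ℝ)..1, ig D k u s := rfl

lemma ig_nonneg (D k : ℕ) (u : ℝ → ℝ) (s : ℝ) : 0 ≤ ig D k u s := le_max_left _ _

lemma ig_le_one (D k : ℕ) (u : ℝ → ℝ) (s : ℝ) : ig D k u s ≤ 1 := by
  unfold ig
  apply max_le zero_le_one
  have : 0 ≤ |u s - hw D k s| * (D : ℝ) ^ (k + 1) := by positivity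
  linarith

lemma ig_zero {D k : ℕ} (hD : 2 ≤ D) {u : ℝ → ℝ} {s : ℝ}
    (h : ¬ |u s - hw D k s| ≤ 1 / (D : ℝ) ^ (k + 1)) : ig D k u s = 0 := by
  unfold ig
  apply max_eq_left
  have hD0 : (0 : ℝ) < D := by
    have : 0 < D := by omega
    exact_mod_cast this
  have hp : 0 < (D : ℝ) ^ (k + 1) := by positivity
  rw [not_le, div_lt_iff₀ hp] at h
  linarith

lemma abs_max_le (x y : ℝ) : |max 0 (1 - x) - max 0 (1 - y)| ≤ |x - y| := by
  have h := abs_max_sub_max_le_abs (1 - x) (1 - y) 0
  rw [max_comm 0 (1 - x), max_comm 0 (1 - y)]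
  refine h.trans (le_of_eq ?_)
  rw [abs_sub_comm x y]
  congr 1
  ring

end BASM

open BASM in
theorem specBAS (hTRI : SpecTRI) : SpecBAS := by
  obtain ⟨hlip, hbd, -, -⟩ := hTRI
  intro D k hD
  have hD0 : (0 : ℝ) < D := by
    have : 0 < D := by omega
    exact_mod_cast this
  have hp : 0 < (D : ℝ) ^ (k + 1) := by positivity
  refine ⟨cont_hw D k, fun s => hbd _, ?_, ?_, ?_⟩
  · intro s s'
    refine (hlip _ _).trans (le_of_eq ?_)
    rw [← mul_sub, abs_mul, abs_of_nonneg (by positivity : (0 : ℝ) ≤ (D : ℝ) ^ ((k + 1) ^ 2))]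
  · intro u hu
    have hint : IntervalIntegrable (ig D k u) volume 0 1 := (cont_ig D k hu).intervalIntegrable _ _
    refine ⟨?_, ?_, ?_⟩
    · rw [Vu_eq]
      exact intervalIntegral.integral_nonneg zero_le_one fun s _ => ig_nonneg D k u s
    · rw [Vu_eq]
      have h1 : ∫ s in (0 : ℝ)..1, ig D k u s ≤ ∫ _s in (0 : ℝ)..1, (1 : ℝ) :=
        intervalIntegral.integral_mono_on zero_le_one hint
          (continuous_const.intervalIntegrable _ _) fun s _ => ig_le_one D k u s
      simpa using h1
    · rw [Vu_eq, intervalIntegral.integral_of_le zero_le_one]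
      set B : Set ℝ := {s : ℝ | s ∈ Icc (0 : ℝ) 1 ∧ |u s - hw D k s| ≤ 1 / (D : ℝ) ^ (k + 1)} with hB
      have hBc : IsClosed B := by
        rw [hB]
        exact isClosed_Icc.inter (isClosed_le (hu.sub (cont_hw D k)).abs continuous_const)
      have hBm : MeasurableSet B := hBc.measurableSet
      have hBf : volume B ≠ ⊤ := by
        have h1 : volume B ≤ volume (Icc (0 : ℝ) 1) := measure_mono fun s hs => hs.1
        exact ne_top_of_le_ne_top (by simp) h1
      have h1 : ∫ s in Ioc (0 : ℝ) 1, ig D k u s ≤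
          ∫ s in Ioc (0 : ℝ) 1, B.indicator (fun _ => (1 : ℝ)) s := by
        apply setIntegral_mono_on
        · rw [← intervalIntegrable_iff_integrableOn_Ioc_of_le zero_le_one]
          exact hint
        · exact (integrableOn_const (by simp)).indicator hBm
        · exact measurableSet_Ioc
        · intro s hs
          by_cases h : s ∈ B
          · rw [indicator_of_mem h]
            exact ig_le_one D k u s
          · rw [indicator_of_notMem h]
            have h2 : ¬ |u s - hw D k s| ≤ 1 / (D : ℝ) ^ (k + 1) :=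
              fun h3 => h ⟨⟨hs.1.le, hs.2⟩, h3⟩
            rw [ig_zero hD h2]
      refine h1.trans ?_
      rw [setIntegral_indicator hBm]
      simp only [integral_const, smul_eq_mul, mul_one, measureReal_restrict_apply_univ]
      exact ENNReal.toReal_mono hBf (measure_mono inter_subset_right)
  · intro u v δ hu hv h
    have hiu : IntervalIntegrable (ig D k u) volume 0 1 := (cont_ig D k hu).intervalIntegrable _ _
    have hiv : IntervalIntegrable (ig D k v) volume 0 1 := (cont_ig D k hv).intervalIntegrable _ _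
    rw [Vu_eq, Vu_eq, ← intervalIntegral.integral_sub hiu hiv]
    have h1 := intervalIntegral.norm_integral_le_of_norm_le_const (a := (0 : ℝ)) (b := 1)
      (f := fun s => ig D k u s - ig D k v s) (C := (D : ℝ) ^ (k + 1) * δ) (by
        intro s hs
        rw [uIoc_of_le zero_le_one] at hs
        rw [Real.norm_eq_abs]
        unfold ig
        refine (abs_max_le _ _).trans ?_
        rw [← sub_mul, abs_mul, abs_of_pos hp, mul_comm]
        apply mul_le_mul_of_nonneg_left _ hp.le
        refine (abs_abs_sub_abs_le _ _).trans ?_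
        have h2 : u s - hw D k s - (v s - hw D k s) = u s - v s := by ring
        rw [h2]
        exact h s hs.1.le hs.2)
    rw [Real.norm_eq_abs] at h1
    simpa using h1

end

end Pool.Agent.Lib.MP5bcdfb.VV
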