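import Pool.Agent.Lib.MP_5bcdfb_an.VV.Spec

/-!
# MP_5bcdfb, module CNS: the valuation into the space of `p`-summable sequences
-/

set_option autoImplicit false

namespace Pool.Agent.Lib.MP5bcdfb.VV

open MeasureTheory Set Filter Topology
open Pool.Agent.Lib.MP5bcdfb.TS

noncomputable section

namespace CNSM

/-- the integrand is a valuation -/
theorem phi_val (x y h c : ℝ) :
    max 0 (1 - |x - h| * c) + max 0 (1 - |y - h| * c) =
      max 0 (1 - |x ⊔ y - h| * c) + max 0 (1 - |x ⊓ y - h| * c) := by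
  rcases le_total x y with hxy | hxy
  · rw [sup_eq_right.mpr hxy, inf_eq_left.mpr hxy, add_comm]
  · rw [sup_eq_left.mpr hxy, inf_eq_right.mpr hxy]

theorem int_cont (D k : ℕ) (hh : Continuous (hw D k)) (u : ℝ → ℝ) (hu : Continuous u) :
    IntervalIntegrable (fun s => max 0 (1 - |u s - hw D k s| * (D : ℝ) ^ (k + 1)))
      volume 0 1 := by
  apply Continuous.intervalIntegrable
  exact continuous_const.max (continuous_const.sub ((hu.sub hh).abs.mul continuous_const))

theorem vu_val (D k : ℕ) (hh : Continuous (hw D k)) (u v : ℝ → ℝ) (hu : Continuous u)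
    (hv : Continuous v) :
    Vu D k u + Vu D k v = Vu D k (fun s => u s ⊔ v s) + Vu D k (fun s => u s ⊓ v s) := by
  unfold Vu
  rw [← intervalIntegral.integral_add (int_cont D k hh u hu) (int_cont D k hh v hv),
    ← intervalIntegral.integral_add (int_cont D k hh _ (hu.sup hv))
      (int_cont D k hh _ (hu.inf hv))]
  refine intervalIntegral.integral_congr fun s _ => ?_
  exact phi_val (u s) (v s) (hw D k s) ((D : ℝ) ^ (k + 1))

theorem abs_sub_lt {x y t : ℝ} (hx : 0 ≤ x) (hy : 0 ≤ y) (h : t < |x - y|) : t < x ∨ t < y := by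
  rcases le_total x y with hxy | hxy
  · right
    rw [abs_of_nonpos (by linarith)] at h
    linarith
  · left
    rw [abs_of_nonneg (by linarith)] at h
    linarith

end CNSM

open CNSM in
theorem specCNS (hBAS : SpecBAS) (hWKL : SpecWKL) (hPWR : SpecPWR) (hSML : SpecSML) :
    SpecCNS := by
  intro K _ _ γ hγ D hD p _ hp1 hptop
  have hD2 : 2 ≤ D := by omega
  have hq1 : 1 < p.toReal := by
    have := (ENNReal.toReal_lt_toReal ENNReal.one_ne_top hptop).mpr hp1
    simpa using this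
  have hq0 : 0 < p.toReal := by linarith
  obtain ⟨C, hC, hPW⟩ := hPWR p.toReal hq1
  have hcont : ∀ f : C(K, ℝ), Continuous fun s : ℝ => f (γ s) := fun f => f.continuous.comp hγ
  have h01 : ∀ (f : C(K, ℝ)) (k : ℕ), 0 ≤ Vu D k (fun s => f (γ s)) ∧
      Vu D k (fun s => f (γ s)) ≤ 1 := fun f k =>
    ⟨((hBAS D k hD2).2.2.2.1 _ (hcont f)).1, ((hBAS D k hD2).2.2.2.1 _ (hcont f)).2.1⟩
  have hmem : ∀ f : C(K, ℝ), Memℓp (fun k : ℕ => Vu D k (fun s => f (γ s))) p := by
    intro f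
    apply memℓp_gen
    have h := (hPW (fun k => Vu D k (fun s => f (γ s))) 1 one_pos le_rfl (h01 f) (by
      intro i
      obtain ⟨h1, h2⟩ := hWKL D i _ hD (hcont f)
      refine ⟨h1, h2.trans ?_⟩
      exact Nat.pow_le_pow_right (by norm_num) (by omega))).1
    refine h.congr fun k => ?_
    rw [Real.norm_of_nonneg (h01 f k).1]
  refine ⟨fun f => ⟨fun k => Vu D k (fun s => f (γ s)), hmem f⟩, fun f k => rfl, ?_, ?_⟩
  · intro f g _ _
    apply Subtype.ext
    funext k
    exact vu_val D k (hBAS D k hD2).1 _ _ (hcont f) (hcont g)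
  · intro f _ ε hε
    have hεq : 0 < ε ^ p.toReal := Real.rpow_pos_of_pos hε _
    have hx : 0 < ε ^ p.toReal / (2 * C) := by positivity
    have hτ0 : 0 < min 1 ((ε ^ p.toReal / (2 * C)) ^ (p.toReal - 1)⁻¹) :=
      lt_min one_pos (Real.rpow_pos_of_pos hx _)
    have hτ1 : min 1 ((ε ^ p.toReal / (2 * C)) ^ (p.toReal - 1)⁻¹) ≤ 1 := min_le_left _ _
    have hτ2 : C * min 1 ((ε ^ p.toReal / (2 * C)) ^ (p.toReal - 1)⁻¹) ^ (p.toReal - 1) <
        ε ^ p.toReal := by
      have h1 : min 1 ((ε ^ p.toReal / (2 * C)) ^ (p.toReal - 1)⁻¹) ^ (p.toReal - 1) ≤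
          ε ^ p.toReal / (2 * C) := by
        refine (Real.rpow_le_rpow hτ0.le (min_le_right _ _) (by linarith)).trans ?_
        rw [Real.rpow_inv_rpow hx.le (by linarith)]
      calc C * min 1 ((ε ^ p.toReal / (2 * C)) ^ (p.toReal - 1)⁻¹) ^ (p.toReal - 1)
          ≤ C * (ε ^ p.toReal / (2 * C)) := mul_le_mul_of_nonneg_left h1 hC.le
        _ = ε ^ p.toReal / 2 := by field_simp
        _ < ε ^ p.toReal := by linarith
    generalize min 1 ((ε ^ p.toReal / (2 * C)) ^ (p.toReal - 1)⁻¹) = τ at hτ0 hτ1 hτ2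
    obtain ⟨r, hr, hrV⟩ := hSML D (fun s => f (γ s)) τ hD2 (hcont f) hτ0
    refine ⟨r, hr, fun g _ hgf => ?_⟩
    have hsm : ∀ k : ℕ, |Vu D k (fun s => g (γ s)) - Vu D k (fun s => f (γ s))| ≤ τ := by
      refine hrV (fun s => g (γ s)) (hcont g) fun s _ _ => ?_
      have h1 := ContinuousMap.norm_coe_le_norm (g - f) (γ s)
      rw [ContinuousMap.sub_apply, Real.norm_eq_abs] at h1
      linarith
    have h2 := (hPW (fun k => |Vu D k (fun s => g (γ s)) - Vu D k (fun s => f (γ s))|) τ hτ0 hτ1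
      (fun k => ⟨abs_nonneg _, hsm k⟩) (by
        intro i
        obtain ⟨f1, f2⟩ := hWKL D i _ hD (hcont f)
        obtain ⟨g1, g2⟩ := hWKL D i _ hD (hcont g)
        have hsub : {k : ℕ | (1 / 2 : ℝ) ^ i <
            |Vu D k (fun s => g (γ s)) - Vu D k (fun s => f (γ s))|} ⊆
            {k : ℕ | (1 / 2 : ℝ) ^ i < Vu D k (fun s => g (γ s))} ∪
            {k : ℕ | (1 / 2 : ℝ) ^ i < Vu D k (fun s => f (γ s))} := by
          intro k hk
          rcases abs_sub_lt (h01 g k).1 (h01 f k).1 hk with h | h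
          · exact Or.inl h
          · exact Or.inr h
        refine ⟨(g1.union f1).subset hsub, ?_⟩
        refine (Set.ncard_le_ncard hsub (g1.union f1)).trans ?_
        refine (Set.ncard_union_le _ _).trans ?_
        have : 2 ^ (i + 3) = 2 ^ (i + 2) + 2 ^ (i + 2) := by ring
        rw [this]
        exact Nat.add_le_add g2 f2)).2
    have h3 := lp.norm_rpow_eq_tsum hq0
      ((⟨fun k => Vu D k (fun s => g (γ s)), hmem g⟩ : lp (fun _ : ℕ => ℝ) p) -
        ⟨fun k => Vu D k (fun s => f (γ s)), hmem f⟩)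
    have h4 : ‖((⟨fun k => Vu D k (fun s => g (γ s)), hmem g⟩ : lp (fun _ : ℕ => ℝ) p) -
        ⟨fun k => Vu D k (fun s => f (γ s)), hmem f⟩)‖ ^ p.toReal < ε ^ p.toReal := by
      rw [h3]
      exact lt_of_le_of_lt h2 hτ2
    exact (Real.rpow_lt_rpow_iff (norm_nonneg _) hε.le hq0).mp h4

end

end Pool.Agent.Lib.MP5bcdfb.VV
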