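import Pool.Agent.Lib.MP_5bcdfb_an.VV.Spec

/-!
# MP_5bcdfb : module GEN of VV, the negative theorem
-/

set_option autoImplicit false

namespace Pool.Agent.Lib.MP5bcdfb.VV

open MeasureTheory Set Filter Topology
open Pool.Agent.Lib.MP5bcdfb.TS

namespace GENM

theorem sum_rpow_le (p : ℝ) (hp : 1 ≤ p) (x : ℕ → ℝ) (hx : ∀ i, 0 ≤ x i) (s : Finset ℕ) :
    ∑ i ∈ s, x i ^ p ≤ (∑ i ∈ s, x i) ^ p := by
  classical
  induction s using Finset.induction_on with
  | empty =>
    simp only [Finset.sum_empty]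
    rw [Real.zero_rpow (by linarith)]
  | insert a s ha ih =>
    rw [Finset.sum_insert ha, Finset.sum_insert ha]
    calc x a ^ p + ∑ i ∈ s, x i ^ p ≤ x a ^ p + (∑ i ∈ s, x i) ^ p := by linarith
      _ ≤ (x a + ∑ i ∈ s, x i) ^ p :=
        Real.add_rpow_le_rpow_add (hx a) (Finset.sum_nonneg (fun i _ => hx i)) hp

/-- the norm in `ℓ_p` is at most the norm in `ℓ_1` -/
theorem norm_le (p : ENNReal) [Fact (1 ≤ p)] (hp : p ≠ ⊤) (R : lp (fun _ : ℕ => ℝ) p) (C : ℝ)
    (hC : 0 ≤ C) (hR : ∀ s : Finset ℕ, ∑ i ∈ s, |R i| ≤ C) : ‖R‖ ≤ C := by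
  have h1 : (1 : ENNReal) ≤ p := Fact.out
  have h2 : 1 ≤ p.toReal := by
    have := ENNReal.toReal_mono hp h1
    simpa using this
  apply lp.norm_le_of_forall_sum_le (by linarith) hC
  intro s
  have h3 := sum_rpow_le p.toReal h2 (fun i => |R i|) (fun i => abs_nonneg _) s
  calc ∑ i ∈ s, ‖R i‖ ^ p.toReal = ∑ i ∈ s, |R i| ^ p.toReal := by simp only [Real.norm_eq_abs]
    _ ≤ (∑ i ∈ s, |R i|) ^ p.toReal := h3
    _ ≤ C ^ p.toReal := Real.rpow_le_rpow (Finset.sum_nonneg (fun i _ => abs_nonneg _)) (hR s)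
        (by linarith)

theorem Vu_congr (D j : ℕ) (u v : ℝ → ℝ) (h : ∀ s, 0 ≤ s → s ≤ 1 → u s = v s) :
    Vu D j u = Vu D j v := by
  unfold Vu
  apply intervalIntegral.integral_congr
  intro s hs
  rw [Set.uIcc_of_le zero_le_one] at hs
  simp only
  rw [h s hs.1 hs.2]

end GENM

open GENM in
theorem specGEN (hTRI : SpecTRI) (_hBAS : SpecBAS) (hCNS : SpecCNS) (hRES : SpecRES) : SpecGEN := by
  intro K _ _ γ c hγ hc p _ hp hpt X _ _ T c₀ hc₀ hT
  obtain ⟨hlip, htri01, -, -⟩ := hTRI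
  have htc : Continuous tri := by
    have : LipschitzWith 1 tri := LipschitzWith.of_dist_le_mul (fun x y => by
      rw [Real.dist_eq, Real.dist_eq]
      simpa using hlip x y)
    exact this.continuous
  -- the choice of `D`
  obtain ⟨D₀, hD₀⟩ := exists_nat_gt (32 * ‖T‖ / c₀)
  obtain ⟨D, hD24, hDN⟩ : ∃ D : ℕ, 24 ≤ D ∧ D₀ < D :=
    ⟨max 24 (D₀ + 1), le_max_left _ _, lt_of_lt_of_le (Nat.lt_succ_self _) (le_max_right _ _)⟩
  have hD24' : (24 : ℝ) ≤ D := by exact_mod_cast hD24
  have hDpos : (0 : ℝ) < D := by linarith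
  have hDD : (D₀ : ℝ) < D := by exact_mod_cast hDN
  have hTD : ‖T‖ * (16 / D) ≤ c₀ / 2 := by
    have h1 : 32 * ‖T‖ / c₀ < D := hD₀.trans hDD
    rw [div_lt_iff₀ hc₀] at h1
    rw [mul_div_assoc', div_le_iff₀ hDpos]
    nlinarith
  obtain ⟨V, hVc, hVval, hVcont⟩ := hCNS K γ hγ D hD24 p hp hpt
  refine ⟨fun f => T (V f), ?_, ?_, ?_⟩
  · intro f g hf hg
    have := hVval f g hf hg
    simp only
    rw [← map_add, this, map_add]
  · intro f hf ε hε
    obtain ⟨r, hr, hrg⟩ := hVcont f hf (ε / (‖T‖ + 1)) (by positivity)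
    refine ⟨r, hr, ?_⟩
    intro g hg hgf
    have h1 := hrg g hg hgf
    simp only
    rw [← map_sub]
    have hTn : 0 ≤ ‖T‖ := norm_nonneg T
    calc ‖T (V g - V f)‖ ≤ ‖T‖ * ‖V g - V f‖ := T.le_opNorm _
      _ ≤ (‖T‖ + 1) * ‖V g - V f‖ := by
          apply mul_le_mul_of_nonneg_right _ (norm_nonneg _)
          linarith
      _ < (‖T‖ + 1) * (ε / (‖T‖ + 1)) := by
          apply mul_lt_mul_of_pos_left h1
          linarith
      _ = ε := by field_simp
  · intro hU
    obtain ⟨δ, hδ, hUδ⟩ := hU 2 (c₀ / 4) (by norm_num) (by positivity)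
    -- the choice of `k`
    have hinv : (1 / (D : ℝ)) < 1 := by
      rw [div_lt_one hDpos]
      linarith
    obtain ⟨k, hk⟩ := exists_pow_lt_of_lt_one (show 0 < δ / 2 by positivity) hinv
    obtain ⟨w, hweq⟩ : ∃ w : ℝ, w = 1 / (D : ℝ) ^ (k + 1) := ⟨_, rfl⟩
    have hw0 : 0 < w := by
      rw [hweq]
      positivity
    have hwD : w ≤ 1 / D := by
      rw [hweq, pow_succ]
      apply one_div_le_one_div_of_le hDpos
      have : (1 : ℝ) ≤ (D : ℝ) ^ k := one_le_pow₀ (by linarith)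
      nlinarith
    have hwδ : 2 * w < δ := by
      have h1 : w ≤ (1 / (D : ℝ)) ^ k := by
        rw [hweq, one_div_pow]
        apply one_div_le_one_div_of_le (by positivity)
        exact pow_le_pow_right₀ (by linarith) (Nat.le_succ k)
      linarith
    have hw1 : 2 * w ≤ 1 := by
      have : 1 / (D : ℝ) ≤ 1 / 24 := one_div_le_one_div_of_le (by norm_num) hD24'
      linarith
    obtain ⟨M, hM⟩ : ∃ M : ℝ, M = (D : ℝ) ^ ((k + 1) ^ 2) := ⟨_, rfl⟩
    have hwM : ∀ s, hw D k s = tri (M * s) := by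
      intro s
      rw [hM]
      rfl
    obtain ⟨F, hFx⟩ : ∃ F : C(K, ℝ), ∀ x, F x = tri (M * c x) :=
      ⟨⟨fun x => tri (M * c x), htc.comp (continuous_const.mul c.continuous)⟩, fun x => rfl⟩
    obtain ⟨G, hGx⟩ : ∃ G : C(K, ℝ), ∀ x, G x = tri (M * c x) + 2 * w :=
      ⟨F + ContinuousMap.const K (2 * w), fun x => by
        rw [ContinuousMap.add_apply, ContinuousMap.const_apply, hFx]⟩
    have hF0 : 0 ≤ F := by
      rw [ContinuousMap.le_def]
      intro x
      rw [hFx, ContinuousMap.zero_apply]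
      exact (htri01 _).1
    have hG0 : 0 ≤ G := by
      rw [ContinuousMap.le_def]
      intro x
      rw [hGx, ContinuousMap.zero_apply]
      have := (htri01 (M * c x)).1
      linarith
    have hFn : ‖F‖ ≤ 2 := by
      rw [ContinuousMap.norm_le _ (by norm_num)]
      intro x
      rw [hFx, Real.norm_eq_abs, abs_le]
      have := htri01 (M * c x)
      constructor <;> linarith
    have hGn : ‖G‖ ≤ 2 := by
      rw [ContinuousMap.norm_le _ (by norm_num)]
      intro x
      rw [hGx, Real.norm_eq_abs, abs_le]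
      have := htri01 (M * c x)
      constructor <;> linarith
    have hFG : ‖F - G‖ < δ := by
      refine lt_of_le_of_lt ?_ hwδ
      rw [ContinuousMap.norm_le _ (by positivity)]
      intro x
      rw [ContinuousMap.sub_apply, hFx, hGx, Real.norm_eq_abs]
      have : tri (M * c x) - (tri (M * c x) + 2 * w)
          = -(2 * w) := by ring
      rw [this, abs_neg, abs_of_pos (by positivity)]
    have hmain := hUδ F G hF0 hG0 hFn hGn hFG
    simp only at hmain
    rw [← map_sub] at hmain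
    -- the coordinates
    obtain ⟨hr1, hr2, hr3⟩ := hRES D k hD24
    have hVF : ∀ j, V F j = Vu D j (hw D k) := by
      intro j
      rw [hVc]
      apply Vu_congr
      intro s hs0 hs1
      rw [hFx, hc s hs0 hs1, hwM]
    have hVG : ∀ j, V G j = Vu D j (fun s => hw D k s + 2 / (D : ℝ) ^ (k + 1)) := by
      intro j
      rw [hVc]
      apply Vu_congr
      intro s hs0 hs1
      rw [hGx, hc s hs0 hs1]
      have : 2 * w = 2 / (D : ℝ) ^ (k + 1) := by rw [hweq]; ring
      rw [this, hwM]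
    obtain ⟨E, hE⟩ : ∃ E : lp (fun _ : ℕ => ℝ) p, E = lp.single p k (1 : ℝ) := ⟨_, rfl⟩
    obtain ⟨R, hR⟩ : ∃ R : lp (fun _ : ℕ => ℝ) p, R = V F - V G - E := ⟨_, rfl⟩
    have hRj : ∀ j, R j = V F j - V G j - E j := by
      intro j
      rw [hR, lp.coeFn_sub, lp.coeFn_sub]
      rfl
    have hRk : R k = 0 := by
      rw [hRj, hVF, hVG, hr1, hr2, hE, lp.single_apply_self]
      norm_num
    have hRne : ∀ j, j ≠ k → R j = Vu D j (hw D k) -
        Vu D j (fun s => hw D k s + 2 / (D : ℝ) ^ (k + 1)) := by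
      intro j hj
      rw [hRj, hVF, hVG, hE, lp.single_apply_ne _ _ _ hj, sub_zero]
    have hRn : ‖R‖ ≤ 16 / D := by
      apply norm_le p hpt R _ (by positivity)
      intro s
      set N := s.sup id + 1 with hN
      have hsub : s.erase k ⊆ (Finset.range N).erase k := by
        intro i hi
        rw [Finset.mem_erase] at hi ⊢
        refine ⟨hi.1, ?_⟩
        rw [Finset.mem_range]
        have : id i ≤ s.sup id := Finset.le_sup hi.2
        simp only [id] at this
        omega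
      have e1 : ∑ i ∈ s, |R i| ≤ ∑ i ∈ s.erase k, |R i| := by
        by_cases hks : k ∈ s
        · rw [← Finset.add_sum_erase s (fun i => |R i|) hks]
          simp only [hRk, abs_zero, zero_add, le_refl]
        · rw [Finset.erase_eq_of_notMem hks]
      calc ∑ i ∈ s, |R i| ≤ ∑ i ∈ s.erase k, |R i| := e1
        _ ≤ ∑ i ∈ (Finset.range N).erase k, |R i| :=
            Finset.sum_le_sum_of_subset_of_nonneg hsub (fun i _ _ => abs_nonneg _)
        _ = ∑ j ∈ (Finset.range N).erase k, |Vu D j (hw D k) -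
              Vu D j (fun s => hw D k s + 2 / (D : ℝ) ^ (k + 1))| := by
            apply Finset.sum_congr rfl
            intro i hi
            rw [hRne i (Finset.mem_erase.mp hi).1]
        _ ≤ 16 / D := hr3 N
    have hdec : V F - V G = E + R := by
      rw [hR]
      abel
    rw [hdec, map_add] at hmain
    have hTE : c₀ ≤ ‖T E‖ := by
      rw [hE]
      exact hT k
    have hTR : ‖T R‖ ≤ c₀ / 2 := by
      calc ‖T R‖ ≤ ‖T‖ * ‖R‖ := T.le_opNorm _
        _ ≤ ‖T‖ * (16 / D) := mul_le_mul_of_nonneg_left hRn (norm_nonneg _)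
        _ ≤ c₀ / 2 := hTD
    have htri : ‖T E‖ ≤ ‖T E + T R‖ + ‖T R‖ := by
      have := norm_sub_le (T E + T R) (T R)
      rw [add_sub_cancel_right] at this
      exact this
    linarith

end Pool.Agent.Lib.MP5bcdfb.VV
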