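import Pool.Agent.Lib.MP_5bcdfb_an.VV.Spec

/-!
# MP_5bcdfb, VV: module OVL (two waves are rarely close)
-/

set_option autoImplicit false

namespace Pool.Agent.Lib.MP5bcdfb.VV

open MeasureTheory Set

theorem specOVL (hVOL : SpecVOL) (hBAS : SpecBAS) : SpecOVL := by
  intro D j k hD hjk
  obtain ⟨hc, _, hlip, _⟩ := hBAS D j hD
  have hD1 : (1 : ℝ) ≤ (D : ℝ) := by
    have : (2 : ℝ) ≤ (D : ℝ) := by exact_mod_cast hD
    linarith
  have hp : ∀ n : ℕ, (0 : ℝ) < (D : ℝ) ^ n := fun n => pow_pos (by linarith) n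
  have h := hVOL D k (hw D j) (2 / (D : ℝ) ^ (j + 1)) (1 / (D : ℝ) ^ (j + 1)) hD hc
    (div_pos two_pos (hp _)).le (div_pos one_pos (hp _)).le ?_
  · refine h.trans (le_of_eq ?_)
    ring
  · intro s s' _ _ _ _ hs
    refine (hlip s s').trans ?_
    refine (mul_le_mul_of_nonneg_left hs (hp _).le).trans ?_
    rw [mul_one_div, div_le_div_iff₀ (hp _) (hp _), ← pow_add, one_mul]
    refine pow_le_pow_right₀ hD1 ?_
    have h1 : (j + 1 + 1) ^ 2 ≤ (k + 1) ^ 2 := Nat.pow_le_pow_left (by omega) 2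
    nlinarith

end Pool.Agent.Lib.MP5bcdfb.VV
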