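import Pool.Agent.Lib.MP_5bcdfb_an.VV.Spec

/-!
# MP_5bcdfb : module PWR of VV, interpolation between weak `ℓ_1` and `ℓ_∞`
-/

set_option autoImplicit false

namespace Pool.Agent.Lib.MP5bcdfb.VV

open MeasureTheory Set Filter Topology
open Pool.Agent.Lib.MP5bcdfb.TS

namespace PWRM

theorem powid (p : ℝ) (i : ℕ) :
    (2 : ℝ) ^ (i + 4) * ((1 / 2 : ℝ) ^ i) ^ p = 16 * (((1 / 2 : ℝ) ^ (p - 1)) ^ i) := by
  have h1 : ((1 / 2 : ℝ) ^ i) ^ p = ((1 / 2 : ℝ) ^ p) ^ i := by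
    rw [← Real.rpow_natCast, ← Real.rpow_natCast, ← Real.rpow_mul (by norm_num),
      ← Real.rpow_mul (by norm_num), mul_comm]
  have h2 : (1 / 2 : ℝ) ^ p = (1 / 2) * (1 / 2 : ℝ) ^ (p - 1) := by
    have : p = 1 + (p - 1) := by ring
    conv_lhs => rw [this]
    rw [Real.rpow_add (by norm_num), Real.rpow_one]
  rw [h1, h2, mul_pow, pow_add]
  have h3 : (2 : ℝ) ^ i * (1 / 2 : ℝ) ^ i = 1 := by
    rw [← mul_pow]
    norm_num
  calc (2 : ℝ) ^ i * 2 ^ 4 * ((1 / 2) ^ i * ((1 / 2 : ℝ) ^ (p - 1)) ^ i)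
      = 16 * (((2 : ℝ) ^ i * (1 / 2) ^ i) * ((1 / 2 : ℝ) ^ (p - 1)) ^ i) := by ring
    _ = 16 * (((1 / 2 : ℝ) ^ (p - 1)) ^ i) := by rw [h3, one_mul]

/-- the bound for finite sums -/
theorem fin_bound (p : ℝ) (hp : 1 < p) (a : ℕ → ℝ) (τ : ℝ) (hτ : 0 < τ) (hτ1 : τ ≤ 1)
    (ha : ∀ k, 0 ≤ a k ∧ a k ≤ τ)
    (hw : ∀ i : ℕ, {k : ℕ | (1 / 2 : ℝ) ^ i < a k}.Finite ∧
      {k : ℕ | (1 / 2 : ℝ) ^ i < a k}.ncard ≤ 2 ^ (i + 3)) (S : Finset ℕ) :
    ∑ k ∈ S, a k ^ p ≤ 16 * (2 : ℝ) ^ (p - 1) / (1 - (1 / 2 : ℝ) ^ (p - 1)) * τ ^ (p - 1) := by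
  classical
  set q : ℝ := (1 / 2 : ℝ) ^ (p - 1) with hq
  have hq0 : 0 < q := Real.rpow_pos_of_pos (by norm_num) _
  have hq1 : q < 1 := Real.rpow_lt_one (by norm_num) (by norm_num) (by linarith)
  have hex : ∀ k, 0 < a k → ∃ i : ℕ, (1 / 2 : ℝ) ^ (i + 1) < a k := by
    intro k hk
    obtain ⟨n, hn⟩ := exists_pow_lt_of_lt_one hk (show (1 / 2 : ℝ) < 1 by norm_num)
    refine ⟨n, lt_of_le_of_lt ?_ hn⟩
    exact pow_le_pow_of_le_one (by norm_num) (by norm_num) (Nat.le_succ n)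
  let ι : ℕ → ℕ := fun k => if h : ∃ i : ℕ, (1 / 2 : ℝ) ^ (i + 1) < a k then Nat.find h else 0
  have hι1 : ∀ k, 0 < a k → (1 / 2 : ℝ) ^ (ι k + 1) < a k := by
    intro k hk
    have h := hex k hk
    have : ι k = Nat.find h := by simp only [ι, dif_pos h]
    rw [this]
    exact Nat.find_spec h
  have hι2 : ∀ k, 0 < a k → a k ≤ (1 / 2 : ℝ) ^ (ι k) := by
    intro k hk
    have h := hex k hk
    have h2 : ι k = Nat.find h := by simp only [ι, dif_pos h]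
    rcases Nat.eq_zero_or_pos (ι k) with h0 | h0
    · rw [h0, pow_zero]
      exact (ha k).2.trans hτ1
    · have h3 := Nat.find_min h (m := ι k - 1) (by omega)
      rw [Nat.sub_add_cancel h0] at h3
      exact not_lt.mp h3
  have hex0 : ∃ i : ℕ, (1 / 2 : ℝ) ^ i < 2 * τ :=
    exists_pow_lt_of_lt_one (by positivity) (by norm_num)
  set i₀ := Nat.find hex0 with hi₀
  have hi₀s : (1 / 2 : ℝ) ^ i₀ < 2 * τ := Nat.find_spec hex0
  have hge : ∀ k, 0 < a k → i₀ ≤ ι k := by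
    intro k hk
    apply Nat.find_min'
    have h1 := hι1 k hk
    have h2 := (ha k).2
    rw [pow_succ] at h1
    linarith
  set S' := S.filter (fun k => 0 < a k) with hS'
  set N := S'.sup ι + 1 with hN
  have hmaps : ∀ k ∈ S', ι k ∈ Finset.Ico i₀ N := by
    intro k hk
    rw [Finset.mem_Ico]
    refine ⟨hge k (Finset.mem_filter.mp hk).2, ?_⟩
    have : ι k ≤ S'.sup ι := Finset.le_sup (f := ι) hk
    omega
  have e1 : ∑ k ∈ S, a k ^ p = ∑ k ∈ S', a k ^ p := by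
    rw [hS', Finset.sum_filter]
    apply Finset.sum_congr rfl
    intro k _
    split_ifs with h
    · rfl
    · have : a k = 0 := le_antisymm (not_lt.mp h) (ha k).1
      rw [this, Real.zero_rpow (by linarith)]
  have e2 : ∑ k ∈ S', a k ^ p = ∑ i ∈ Finset.Ico i₀ N, ∑ k ∈ S' with ι k = i, a k ^ p :=
    (Finset.sum_fiberwise_of_maps_to hmaps _).symm
  have e3 : ∀ i ∈ Finset.Ico i₀ N, ∑ k ∈ S' with ι k = i, a k ^ p ≤ 16 * q ^ i := by
    intro i _
    have hcard : ((S'.filter (fun k => ι k = i)).card : ℝ) ≤ 2 ^ (i + 4) := by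
      have hsub : ((S'.filter (fun k => ι k = i) : Finset ℕ) : Set ℕ) ⊆
          {k : ℕ | (1 / 2 : ℝ) ^ (i + 1) < a k} := by
        intro k hk
        simp only [Finset.coe_filter, Set.mem_ofPred_eq] at hk
        obtain ⟨hk1, hk2⟩ := hk
        have h3 := hι1 k (Finset.mem_filter.mp hk1).2
        rw [hk2] at h3
        exact h3
      have h4 := Set.ncard_le_ncard hsub (hw (i + 1)).1
      rw [Set.ncard_coe_finset] at h4
      have h5 := h4.trans (hw (i + 1)).2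
      have h6 : i + 1 + 3 = i + 4 := by ring
      rw [h6] at h5
      exact_mod_cast h5
    calc ∑ k ∈ S' with ι k = i, a k ^ p
        ≤ ∑ k ∈ S' with ι k = i, ((1 / 2 : ℝ) ^ i) ^ p := by
          apply Finset.sum_le_sum
          intro k hk
          have hk' := Finset.mem_filter.mp hk
          have hpos := (Finset.mem_filter.mp hk'.1).2
          have h7 := hι2 k hpos
          rw [hk'.2] at h7
          exact Real.rpow_le_rpow hpos.le h7 (by linarith)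
      _ = (S'.filter (fun k => ι k = i)).card * ((1 / 2 : ℝ) ^ i) ^ p := by
          rw [Finset.sum_const, nsmul_eq_mul]
      _ ≤ 2 ^ (i + 4) * ((1 / 2 : ℝ) ^ i) ^ p := by
          apply mul_le_mul_of_nonneg_right hcard
          positivity
      _ = 16 * q ^ i := powid p i
  have e4 : q ^ i₀ ≤ (2 : ℝ) ^ (p - 1) * τ ^ (p - 1) := by
    have h8 : q ^ i₀ = ((1 / 2 : ℝ) ^ i₀) ^ (p - 1) := by
      rw [hq, ← Real.rpow_natCast, ← Real.rpow_natCast, ← Real.rpow_mul (by norm_num),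
        ← Real.rpow_mul (by norm_num), mul_comm]
    rw [h8, ← Real.mul_rpow (by norm_num) hτ.le]
    exact Real.rpow_le_rpow (by positivity) hi₀s.le (by linarith)
  calc ∑ k ∈ S, a k ^ p = ∑ i ∈ Finset.Ico i₀ N, ∑ k ∈ S' with ι k = i, a k ^ p := by rw [e1, e2]
    _ ≤ ∑ i ∈ Finset.Ico i₀ N, 16 * q ^ i := Finset.sum_le_sum e3
    _ = 16 * ∑ i ∈ Finset.Ico i₀ N, q ^ i := by rw [Finset.mul_sum]
    _ ≤ 16 * (q ^ i₀ / (1 - q)) := by
        apply mul_le_mul_of_nonneg_left _ (by norm_num)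
        exact geom_sum_Ico_le_of_lt_one hq0.le hq1
    _ ≤ 16 * (((2 : ℝ) ^ (p - 1) * τ ^ (p - 1)) / (1 - q)) := by
        apply mul_le_mul_of_nonneg_left _ (by norm_num)
        apply div_le_div_of_nonneg_right e4
        linarith
    _ = 16 * (2 : ℝ) ^ (p - 1) / (1 - q) * τ ^ (p - 1) := by ring

end PWRM

open PWRM in
theorem specPWR : SpecPWR := by
  intro p hp
  have hq1 : (1 / 2 : ℝ) ^ (p - 1) < 1 := Real.rpow_lt_one (by norm_num) (by norm_num) (by linarith)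
  refine ⟨16 * (2 : ℝ) ^ (p - 1) / (1 - (1 / 2 : ℝ) ^ (p - 1)), ?_, ?_⟩
  · have : 0 < 1 - (1 / 2 : ℝ) ^ (p - 1) := by linarith
    positivity
  · intro a τ hτ hτ1 ha hw
    have hb := fin_bound p hp a τ hτ hτ1 ha hw
    have hs : Summable (fun k => a k ^ p) :=
      summable_of_sum_le (fun k => Real.rpow_nonneg (ha k).1 _) hb
    exact ⟨hs, hs.tsum_le_of_sum_le hb⟩

end Pool.Agent.Lib.MP5bcdfb.VV
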