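import Pool.Agent.Lib.MP_5bcdfb_an.VV.Spec

/-!
# MP_5bcdfb: vector valued valuations, the positive theorem
-/

set_option autoImplicit false

namespace Pool.Agent.Lib.MP5bcdfb.VV

open MeasureTheory Set Filter Topology
open Pool.Agent.Lib.MP5bcdfb.TS

namespace SCVM

/-- scalar functionals of a vector valued continuous valuation are uniformly continuous on bounded sets -/
theorem ucb_comp (hFWD : TS.SpecFWD) {K : Type} [MetricSpace K] [CompactSpace K] {X : Type}
    [NormedAddCommGroup X] [NormedSpace ℝ X] (V : C(K, ℝ) → X) (hV : ValX V) (hC : ContX V) (φ : X →L[ℝ] ℝ) :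
    UCB (fun f => φ (V f)) := by
  let _ : MeasurableSpace K := borel K
  have : BorelSpace K := ⟨rfl⟩
  refine hFWD K {f | 0 ≤ f} (fun f hf => hf) ?_ _ ?_ ?_
  · intro a μ _ ha hμ
    refine ⟨a, ha, ?_⟩
    have h1 : {t | a t = a t} = (Set.univ : Set K) := by ext t; simp
    rw [h1]
    exact Measure.measure_univ_pos.mpr hμ
  · intro f g hf hg
    have h := hV f g hf hg
    show φ (V f) + φ (V g) = φ (V (f ⊔ g)) + φ (V (f ⊓ g))
    rw [← map_add, h, map_add]
  · intro f hf ε hε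
    have hpos : 0 < ‖φ‖ + 1 := by positivity
    obtain ⟨r, hr, h⟩ := hC f hf (ε / (‖φ‖ + 1)) (by positivity)
    refine ⟨r, hr, fun g hg hgf => ?_⟩
    have h2 := h g hg hgf
    have h3 : |φ (V g) - φ (V f)| ≤ ‖φ‖ * ‖V g - V f‖ := by
      rw [← map_sub, ← Real.norm_eq_abs]
      exact φ.le_opNorm _
    have h4 : (‖φ‖ + 1) * ‖V g - V f‖ < ε := by
      rw [lt_div_iff₀ hpos] at h2
      linarith
    have h5 : 0 ≤ ‖V g - V f‖ := norm_nonneg _
    show |φ (V g) - φ (V f)| < ε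
    nlinarith

end SCVM

/-- **SCV** -/
theorem specSCV (hFWD : TS.SpecFWD) : SpecSCV := by
  intro K _ _ X _ _ hS V hV hC m ε hm hε
  by_contra hcon
  push Not at hcon
  have hpos : ∀ n : ℕ, (0 : ℝ) < 1 / ((n : ℝ) + 1) := fun n => by positivity
  choose f g hf hg hfm hgm hfg hVfg using fun n : ℕ => hcon (1 / ((n : ℝ) + 1)) (hpos n)
  have hy : Tendsto (fun n => V (f n) - V (g n)) atTop (𝓝 0) := by
    refine hS _ (fun φ => ?_)
    have hU := SCVM.ucb_comp hFWD V hV hC φ
    rw [Metric.tendsto_atTop]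
    intro ε' hε'
    obtain ⟨δ, hδ, h⟩ := hU m (ε' / 2) hm (by positivity)
    obtain ⟨N, hN⟩ := exists_nat_one_div_lt hδ
    refine ⟨N, fun n hn => ?_⟩
    have h1 : (1 : ℝ) / ((n : ℝ) + 1) ≤ 1 / ((N : ℝ) + 1) := by
      apply one_div_le_one_div_of_le (by positivity)
      have : (N : ℝ) ≤ n := by exact_mod_cast hn
      linarith
    have h2 := h (f n) (g n) (hf n) (hg n) (hfm n) (hgm n) (by have := hfg n; linarith)
    rw [Real.dist_eq, sub_zero, map_sub]
    have h3 : |φ (V (f n)) - φ (V (g n))| ≤ ε' / 2 := h2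
    linarith
  rw [Metric.tendsto_atTop] at hy
  obtain ⟨N, hN⟩ := hy ε hε
  have h1 := hN N le_rfl
  rw [dist_zero_right] at h1
  have h2 := hVfg N
  linarith

end Pool.Agent.Lib.MP5bcdfb.VV
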