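import Pool.Agent.Lib.MP_5bcdfb_an.VV.Spec

/-!
Module SL1: Schur's theorem for the space of summable sequences.
-/

set_option autoImplicit false

namespace Pool.Agent.Lib.MP5bcdfb.VV

open MeasureTheory Set Filter Topology
open Pool.Agent.Lib.MP5bcdfb.TS

noncomputable section

namespace SL1M

theorem coord_tendsto (a : ℕ → ℕ → ℝ)
    (h : ∀ θ : ℕ → ℝ, (∀ j, |θ j| ≤ 1) → Tendsto (fun n => ∑' j, θ j * a n j) atTop (𝓝 0)) (j : ℕ) :
    Tendsto (fun n => a n j) atTop (𝓝 0) := by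
  have h1 := h (Pi.single j 1) (by
    intro i
    by_cases hi : i = j
    · subst hi; simp
    · simp [hi])
  have h2 : (fun n => ∑' i, (Pi.single j 1 : ℕ → ℝ) i * a n i) = fun n => a n j := by
    funext n
    rw [tsum_eq_single j]
    · simp
    · intro i hi
      simp [hi]
  rwa [h2] at h1

theorem sum_tendsto (a : ℕ → ℕ → ℝ) (h : ∀ j, Tendsto (fun n => a n j) atTop (𝓝 0)) (N : ℕ) :
    Tendsto (fun n => ∑ j ∈ Finset.range N, |a n j|) atTop (𝓝 0) := by
  have h1 : Tendsto (fun n => ∑ j ∈ Finset.range N, |a n j|) atTop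
      (𝓝 (∑ j ∈ Finset.range N, |(0 : ℝ)|)) :=
    tendsto_finsetSum _ fun j _ => (h j).abs
  simpa using h1

theorem block (a θ : ℕ → ℝ) (ha : Summable fun j => |a j|) (hθ : ∀ j, |θ j| ≤ 1) (M N : ℕ)
    (hMN : M ≤ N) (ε : ℝ) (h1 : ∑ j ∈ Finset.range M, |a j| ≤ ε / 8)
    (h2 : (∑' j, |a j|) - ∑ j ∈ Finset.range N, |a j| ≤ ε / 8)
    (hs : ∀ j, M ≤ j → j < N → θ j * a j = |a j|) (h0 : ε ≤ ∑' j, |a j|) :
    ε / 2 ≤ ∑' j, θ j * a j := by
  have hab : ∀ j, |θ j * a j| ≤ |a j| := by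
    intro j
    rw [abs_mul]
    exact mul_le_of_le_one_left (abs_nonneg _) (hθ j)
  have hθs : Summable fun j => θ j * a j := Summable.of_norm_bounded ha (by
    intro j
    rw [Real.norm_eq_abs]
    exact hab j)
  have hbs : Summable fun j => |a j| - θ j * a j := ha.sub hθs
  have hb0 : ∀ j, |a j| - θ j * a j ≤ 2 * |a j| := by
    intro j
    have := (abs_le.mp (hab j)).1
    linarith
  have e1 : (∑' j, |a j|) - ∑' j, θ j * a j = ∑' j, (|a j| - θ j * a j) := (ha.tsum_sub hθs).symm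
  have e2 := hbs.sum_add_tsum_nat_add N
  have e3 := ha.sum_add_tsum_nat_add N
  have e4 : ∑' j, (|a (j + N)| - θ (j + N) * a (j + N)) ≤ ∑' j, 2 * |a (j + N)| := by
    refine Summable.tsum_le_tsum (fun j => hb0 (j + N)) ?_ ?_
    · exact (summable_nat_add_iff N).mpr hbs
    · exact ((summable_nat_add_iff N).mpr ha).mul_left 2
  rw [tsum_mul_left] at e4
  have e5 : ∑ j ∈ Finset.range N, (|a j| - θ j * a j) ≤ ∑ j ∈ Finset.range M, 2 * |a j| := by
    have : ∑ j ∈ Finset.range N, (|a j| - θ j * a j)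
        = ∑ j ∈ Finset.range M, (|a j| - θ j * a j) := by
      symm
      refine Finset.sum_subset (Finset.range_mono hMN) ?_
      intro j hjN hjM
      rw [Finset.mem_range] at hjN hjM
      rw [hs j (by omega) hjN, sub_self]
    rw [this]
    exact Finset.sum_le_sum fun j _ => hb0 j
  rw [← Finset.mul_sum] at e5
  linarith

theorem schur_real (a : ℕ → ℕ → ℝ) (ha : ∀ n, Summable fun j => |a n j|)
    (h : ∀ θ : ℕ → ℝ, (∀ j, |θ j| ≤ 1) → Tendsto (fun n => ∑' j, θ j * a n j) atTop (𝓝 0)) :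
    Tendsto (fun n => ∑' j, |a n j|) atTop (𝓝 0) := by
  by_contra hcon
  have hnn : ∀ n, 0 ≤ ∑' j, |a n j| := fun n => tsum_nonneg fun j => abs_nonneg _
  rw [Metric.tendsto_atTop] at hcon
  push Not at hcon
  obtain ⟨ε, hε, hfr⟩ := hcon
  have hfr' : ∀ N, ∃ n ≥ N, ε ≤ ∑' j, |a n j| := by
    intro N
    obtain ⟨n, hn, h1⟩ := hfr N
    refine ⟨n, hn, ?_⟩
    rwa [Real.dist_eq, sub_zero, abs_of_nonneg (hnn n)] at h1
  have hco := coord_tendsto a h
  have step : ∀ p : ℕ × ℕ, ∃ q : ℕ × ℕ, p.1 < q.1 ∧ p.2 < q.2 ∧ ε ≤ ∑' j, |a q.1 j| ∧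
      ∑ j ∈ Finset.range p.2, |a q.1 j| ≤ ε / 8 ∧
      (∑' j, |a q.1 j|) - ∑ j ∈ Finset.range q.2, |a q.1 j| ≤ ε / 8 := by
    intro p
    have h8 : 0 < ε / 8 := by linarith
    obtain ⟨n0, hn0⟩ := (Metric.tendsto_atTop.mp (sum_tendsto a hco p.2)) (ε / 8) h8
    obtain ⟨n, hn, h1⟩ := hfr' (max n0 (p.1 + 1))
    have hn1 : n0 ≤ n := (le_max_left _ _).trans hn
    have hn2 : p.1 + 1 ≤ n := (le_max_right _ _).trans hn
    have h2 := hn0 n hn1
    rw [Real.dist_eq, sub_zero] at h2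
    have h3 := (ha n).hasSum.tendsto_sum_nat
    obtain ⟨N0, hN0⟩ := (Metric.tendsto_atTop.mp h3) (ε / 8) h8
    have h4 := hN0 (max N0 (p.2 + 1)) (le_max_left _ _)
    rw [Real.dist_eq] at h4
    refine ⟨(n, max N0 (p.2 + 1)), by simp only; omega, ?_, h1, ?_, ?_⟩
    · exact lt_of_lt_of_le (Nat.lt_succ_self _) (le_max_right _ _)
    · exact (le_abs_self _).trans h2.le
    · have := (abs_lt.mp h4).1
      simp only
      linarith
  choose F hF1 hF2 hF3 hF4 hF5 using step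
  let sq : ℕ → ℕ × ℕ := fun k => Nat.rec (0, 0) (fun _ p => F p) k
  have hsq : ∀ k, sq (k + 1) = F (sq k) := fun k => rfl
  have hn : StrictMono fun k => (sq k).1 := strictMono_nat_of_lt_succ fun k => by
    change (sq k).1 < (sq (k + 1)).1
    rw [hsq]; exact hF1 _
  have hN : StrictMono fun k => (sq k).2 := strictMono_nat_of_lt_succ fun k => by
    change (sq k).2 < (sq (k + 1)).2
    rw [hsq]; exact hF2 _
  have hex : ∀ j : ℕ, ∃ k, j < (sq (k + 1)).2 := by
    intro j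
    refine ⟨j, ?_⟩
    have : j + 1 ≤ (sq (j + 1)).2 := hN.le_apply (x := j + 1)
    omega
  classical
  let θ : ℕ → ℝ := fun j => SignType.sign (a (sq (Nat.find (hex j) + 1)).1 j)
  have hθ : ∀ j, |θ j| ≤ 1 := by
    intro j
    rcases lt_trichotomy (a (sq (Nat.find (hex j) + 1)).1 j) 0 with hlt | heq | hgt
    · simp [θ, sign_neg hlt]
    · simp [θ, heq]
    · simp [θ, sign_pos hgt]
  have hfind : ∀ k j, (sq k).2 ≤ j → j < (sq (k + 1)).2 → Nat.find (hex j) = k := by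
    intro k j h1 h2
    rw [Nat.find_eq_iff]
    refine ⟨h2, ?_⟩
    intro i hi hlt
    have : (sq (i + 1)).2 ≤ (sq k).2 := hN.monotone (by omega : i + 1 ≤ k)
    omega
  have hblock : ∀ k, ε / 2 ≤ ∑' j, θ j * a (sq (k + 1)).1 j := by
    intro k
    refine block (a (sq (k + 1)).1) θ (ha _) hθ (sq k).2 (sq (k + 1)).2
      (hN.monotone (Nat.le_succ k)) ε ?_ ?_ ?_ ?_
    · rw [hsq]; exact hF4 _
    · rw [hsq]; exact hF5 _
    · intro j h1 h2
      simp only [θ, hfind k j h1 h2]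
      exact sign_mul_self _
    · rw [hsq]; exact hF3 _
  have hlim := h θ hθ
  have hsub : Tendsto (fun k => (sq (k + 1)).1) atTop atTop :=
    hn.tendsto_atTop.comp (tendsto_add_atTop_nat 1)
  have hlim2 := hlim.comp hsub
  have := ge_of_tendsto' hlim2 hblock
  linarith

theorem summable_abs (f : lp (fun _ : ℕ => ℝ) 1) : Summable fun j => |f j| := by
  have h := (memℓp_gen_iff (p := 1) (by simp)).mp (lp.memℓp f)
  simpa using h

theorem norm_eq (f : lp (fun _ : ℕ => ℝ) 1) : ‖f‖ = ∑' j, |f j| := by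
  rw [lp.norm_eq_tsum_rpow (by simp)]
  simp

theorem exists_functional (θ : ℕ → ℝ) (hθ : ∀ j, |θ j| ≤ 1) :
    ∃ φ : lp (fun _ : ℕ => ℝ) 1 →L[ℝ] ℝ, ∀ f, φ f = ∑' j, θ j * f j := by
  have hs : ∀ f : lp (fun _ : ℕ => ℝ) 1, Summable fun j => θ j * f j := by
    intro f
    refine Summable.of_norm_bounded (summable_abs f) ?_
    intro j
    rw [Real.norm_eq_abs, abs_mul]
    exact mul_le_of_le_one_left (abs_nonneg _) (hθ j)
  let L : lp (fun _ : ℕ => ℝ) 1 →ₗ[ℝ] ℝ :=
    { toFun := fun f => ∑' j, θ j * f j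
      map_add' := by
        intro f g
        rw [← (hs f).tsum_add (hs g)]
        refine tsum_congr fun j => ?_
        rw [lp.coeFn_add, Pi.add_apply]
        ring
      map_smul' := by
        intro c f
        simp only [RingHom.id_apply, smul_eq_mul]
        rw [← tsum_mul_left]
        refine tsum_congr fun j => ?_
        rw [lp.coeFn_smul, Pi.smul_apply, smul_eq_mul]
        ring }
  refine ⟨L.mkContinuous 1 ?_, fun f => rfl⟩
  intro f
  rw [one_mul, norm_eq]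
  change ‖∑' j, θ j * f j‖ ≤ _
  refine (norm_tsum_le_tsum_norm (hs f).norm).trans ?_
  refine Summable.tsum_le_tsum ?_ (hs f).norm (summable_abs f)
  intro j
  rw [Real.norm_eq_abs, abs_mul]
  exact mul_le_of_le_one_left (abs_nonneg _) (hθ j)

end SL1M

theorem specSL1 : SpecSL1 := by
  intro y hy
  rw [tendsto_zero_iff_norm_tendsto_zero]
  have h := SL1M.schur_real (fun n j => y n j) (fun n => SL1M.summable_abs (y n)) ?_
  · simpa only [SL1M.norm_eq] using h
  · intro θ hθ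
    obtain ⟨φ, hφ⟩ := SL1M.exists_functional θ hθ
    have := hy φ
    simpa only [hφ] using this

end

end Pool.Agent.Lib.MP5bcdfb.VV
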