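import Pool.Agent.Lib.MP_5bcdfb_an.VV.Spec

namespace Pool.Agent.Lib.MP5bcdfb.VV

namespace SPHM

noncomputable def cl (s : ℝ) : ℝ := max 0 (min 1 s)

theorem cl_cont : Continuous cl := by
  unfold cl
  fun_prop

theorem cl_nonneg (s : ℝ) : 0 ≤ cl s := le_max_left _ _

theorem cl_le (s : ℝ) : cl s ≤ 1 := max_le zero_le_one (min_le_left _ _)

theorem cl_id {s : ℝ} (h0 : 0 ≤ s) (h1 : s ≤ 1) : cl s = s := by
  unfold cl
  rw [min_eq_right h1, max_eq_right h0]

end SPHM

open SPHM in
theorem specSPH : SpecSPH := by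
  intro n hn
  have hi0 : 0 < n := by omega
  have hi1 : 1 < n := by omega
  set i0 : Fin n := ⟨0, hi0⟩ with hi0d
  set i1 : Fin n := ⟨1, hi1⟩ with hi1d
  have hne : i0 ≠ i1 := by
    intro h
    have := congrArg Fin.val h
    simp [hi0d, hi1d] at this
  set e0 : EuclideanSpace ℝ (Fin n) := EuclideanSpace.single i0 (1 : ℝ) with he0
  set e1 : EuclideanSpace ℝ (Fin n) := EuclideanSpace.single i1 (1 : ℝ) with he1
  have hn0 : ‖e0‖ = 1 := by rw [he0, EuclideanSpace.norm_single]; simp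
  have hn1 : ‖e1‖ = 1 := by rw [he1, EuclideanSpace.norm_single]; simp
  have hin : inner ℝ e0 e1 = (0 : ℝ) := by
    rw [he0, he1, EuclideanSpace.inner_single_left]
    simp [hne]
  set v : ℝ → EuclideanSpace ℝ (Fin n) := fun s => cl s • e0 + √(1 - cl s ^ 2) • e1 with hv
  have hvc : Continuous v := by
    have h1 := cl_cont
    have h2 : Continuous (fun s => √(1 - cl s ^ 2)) := by fun_prop
    exact (h1.smul continuous_const).add (h2.smul continuous_const)
  have hsq : ∀ s, 0 ≤ 1 - cl s ^ 2 := by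
    intro s
    have h1 := cl_nonneg s
    have h2 := cl_le s
    nlinarith
  have hvn : ∀ s, ‖v s‖ = 1 := by
    intro s
    have h : ‖v s‖ ^ 2 = 1 := by
      rw [hv]
      simp only
      rw [norm_add_sq_real, norm_smul, norm_smul, hn0, hn1, real_inner_smul_left, real_inner_smul_right, hin]
      have h3 := Real.sq_sqrt (hsq s)
      simp only [mul_one, mul_zero, add_zero, Real.norm_eq_abs, sq_abs]
      rw [h3]
      ring
    have h4 : 0 ≤ ‖v s‖ := norm_nonneg _
    nlinarith
  refine ⟨fun s => ⟨v s, by rw [mem_sphere_zero_iff_norm]; exact hvn s⟩,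
    ⟨fun x => (x : EuclideanSpace ℝ (Fin n)) i0, ?_⟩, ?_, ?_⟩
  · fun_prop
  · exact Continuous.subtype_mk hvc _
  · intro s h0 h1
    show (v s) i0 = s
    rw [hv]
    simp [he0, he1, hne, cl_id h0 h1]

end Pool.Agent.Lib.MP5bcdfb.VV
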