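import Pool.Agent.Lib.MP_5bcdfb_an.VV.Spec

/-!
# MP_5bcdfb, VV, module TRI: the triangular wave
-/

set_option autoImplicit false

namespace Pool.Agent.Lib.MP5bcdfb.VV

open MeasureTheory Set Filter Topology
open Pool.Agent.Lib.MP5bcdfb.TS

namespace TRIM

theorem tri_le (x : ℝ) (n : ℤ) : tri x ≤ |x - 2 * (n : ℝ)| := by
  have h := Metric.infDist_le_dist_of_mem (x := x)
    (show (2 * (n : ℝ)) ∈ Set.range fun n : ℤ => 2 * (n : ℝ) from ⟨n, rfl⟩)
  rwa [Real.dist_eq] at h

theorem le_tri (x d : ℝ) (h : ∀ n : ℤ, d ≤ |x - 2 * (n : ℝ)|) : d ≤ tri x := by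
  have hne : (Set.range fun n : ℤ => 2 * (n : ℝ)).Nonempty := Set.range_nonempty _
  refine (Metric.le_infDist hne).2 ?_
  rintro _ ⟨n, rfl⟩
  rw [Real.dist_eq]
  exact h n

end TRIM

theorem specTRI : SpecTRI := by
  refine ⟨fun x y => ?_, fun x => ⟨Metric.infDist_nonneg, ?_⟩, fun i x h1 h2 => ?_,
    fun i x h1 h2 => ?_⟩
  · rw [abs_le]
    have h1 : tri x ≤ tri y + dist x y := Metric.infDist_le_infDist_add_dist
    have h2 : tri y ≤ tri x + dist y x := Metric.infDist_le_infDist_add_dist
    rw [Real.dist_eq] at h1 h2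
    rw [abs_sub_comm y x] at h2
    constructor <;> linarith
  · refine (TRIM.tri_le x (round (x / 2))).trans ?_
    have h := abs_sub_round (x / 2)
    rw [abs_le] at h ⊢
    constructor <;> linarith [h.1, h.2]
  · refine le_antisymm ?_ (TRIM.le_tri _ _ fun n => ?_)
    · refine (TRIM.tri_le x i).trans ?_
      rw [abs_of_nonneg (by linarith)]
    · rcases le_or_gt n i with h | h
      · have h' : (n : ℝ) ≤ (i : ℝ) := by exact_mod_cast h
        exact le_trans (by linarith) (le_abs_self _)
      · have h' : (i : ℝ) + 1 ≤ (n : ℝ) := by exact_mod_cast h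
        exact le_trans (by linarith) (neg_le_abs _)
  · refine le_antisymm ?_ (TRIM.le_tri _ _ fun n => ?_)
    · refine (TRIM.tri_le x (i + 1)).trans ?_
      push_cast
      rw [abs_of_nonpos (by linarith)]
      linarith
    · rcases le_or_gt n i with h | h
      · have h' : (n : ℝ) ≤ (i : ℝ) := by exact_mod_cast h
        exact le_trans (by linarith) (le_abs_self _)
      · have h' : (i : ℝ) + 1 ≤ (n : ℝ) := by exact_mod_cast h
        exact le_trans (by linarith) (neg_le_abs _)

end Pool.Agent.Lib.MP5bcdfb.VV
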