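import Pool.Agent.Lib.MP_5bcdfb_an.VV.Spec

/-!
# MP_5bcdfb, VV: module VOL, the wave is uniformly distributed at its scale
-/

set_option autoImplicit false

namespace Pool.Agent.Lib.MP5bcdfb.VV

open MeasureTheory Set Filter Topology
open Pool.Agent.Lib.MP5bcdfb.TS

namespace VOLM

/-- the index of the cell -/
theorem exists_cell (M : ℕ) (hM : 0 < M) (s : ℝ) (h0 : 0 ≤ s) (h1 : s ≤ 1) :
    ∃ i : ℕ, i < M ∧ (i : ℝ) ≤ M * s ∧ (M : ℝ) * s ≤ i + 1 := by
  have hM' : (0 : ℝ) < M := Nat.cast_pos.2 hM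
  rcases lt_or_eq_of_le h1 with h | h
  · refine ⟨⌊(M : ℝ) * s⌋₊, ?_, ?_, ?_⟩
    · rw [Nat.floor_lt (by positivity)]
      nlinarith
    · exact Nat.floor_le (by positivity)
    · exact (Nat.lt_floor_add_one _).le
  · refine ⟨M - 1, by omega, ?_, ?_⟩
    · rw [h, mul_one]
      exact_mod_cast Nat.sub_le M 1
    · rw [h, mul_one]
      have : M ≤ (M - 1) + 1 := by omega
      exact_mod_cast this

/-- in a cell the set of the `s` with `|v - hw s| ≤ r` is in an interval -/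
theorem cell_interval (hTRI : SpecTRI) (M i : ℕ) (hM : 0 < M) (v : ℝ) :
    ∃ c : ℝ, ∀ (s r : ℝ), (i : ℝ) ≤ M * s → (M : ℝ) * s ≤ i + 1 → |v - tri (M * s)| ≤ r →
      s ∈ Icc (c - r / M) (c + r / M) := by
  have hM' : (0 : ℝ) < M := Nat.cast_pos.2 hM
  obtain ⟨-, -, hev, hod⟩ := hTRI
  rcases Nat.even_or_odd i with ⟨j, hj⟩ | ⟨j, hj⟩
  · refine ⟨((i : ℝ) + v) / M, ?_⟩
    intro s r h1 h2 h3
    have hij : (i : ℝ) = 2 * (((j : ℤ)) : ℝ) := by
      rw [hj]; push_cast; ring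
    have h4 : tri (M * s) = M * s - 2 * (((j : ℤ)) : ℝ) :=
      hev (j : ℤ) (M * s) (by rw [← hij]; exact h1) (by rw [← hij]; exact h2)
    rw [h4, ← hij, abs_le] at h3
    rw [mem_Icc, ← sub_div, ← add_div, div_le_iff₀ hM', le_div_iff₀ hM']
    constructor <;> nlinarith [h3.1, h3.2]
  · refine ⟨((i : ℝ) + 1 - v) / M, ?_⟩
    intro s r h1 h2 h3
    have hij : (i : ℝ) = 2 * (((j : ℤ)) : ℝ) + 1 := by
      rw [hj]; push_cast; ring
    have h4 : tri (M * s) = 2 * (((j : ℤ)) : ℝ) + 2 - M * s :=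
      hod (j : ℤ) (M * s) (by rw [← hij]; exact h1) (by
        have : (2 : ℝ) * (((j : ℤ)) : ℝ) + 2 = i + 1 := by rw [hij]; ring
        rw [this]; exact h2)
    have h5 : (2 : ℝ) * (((j : ℤ)) : ℝ) + 2 = i + 1 := by rw [hij]; ring
    rw [h4, h5, abs_le] at h3
    rw [mem_Icc, ← sub_div, ← add_div, div_le_iff₀ hM', le_div_iff₀ hM']
    constructor <;> nlinarith [h3.1, h3.2]

end VOLM

open VOLM in
theorem specVOL (hTRI : SpecTRI) : SpecVOL := by
  intro D k u a b hD _ ha hb hub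
  obtain ⟨M, hMd⟩ : ∃ M : ℕ, M = D ^ ((k + 1) ^ 2) := ⟨_, rfl⟩
  have hMpos : 0 < M := by rw [hMd]; positivity
  have hM' : (0 : ℝ) < M := Nat.cast_pos.2 hMpos
  have hcast : ((D : ℝ) ^ ((k + 1) ^ 2)) = (M : ℝ) := by rw [hMd]; push_cast; rfl
  choose c hc using fun i : ℕ => cell_interval hTRI M i hMpos (u ((i : ℝ) / M))
  have hsub : {s : ℝ | s ∈ Icc (0 : ℝ) 1 ∧ |u s - hw D k s| ≤ a} ⊆
      ⋃ i ∈ Finset.range M, Icc (c i - (a + b) / M) (c i + (a + b) / M) := by
    rintro s ⟨hs, hsa⟩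
    obtain ⟨i, hiM, hi1, hi2⟩ := exists_cell M hMpos s hs.1 hs.2
    have hi3 : |u s - u ((i : ℝ) / M)| ≤ b := by
      apply hub s _ hs.1 hs.2 (by positivity)
      · rw [div_le_one hM']
        exact_mod_cast hiM.le
      · rw [hcast, abs_le]
        have h5 : (i : ℝ) / M ≤ s := by
          rw [div_le_iff₀ hM']; linarith
        have h6 : s ≤ (i : ℝ) / M + 1 / M := by
          rw [← add_div, le_div_iff₀ hM']; linarith
        have h7 : (0 : ℝ) < 1 / M := by positivity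
        constructor <;> linarith
    have h8 : |u ((i : ℝ) / M) - tri (M * s)| ≤ a + b := by
      have h9 : hw D k s = tri (M * s) := by
        unfold hw
        rw [hcast]
      rw [h9] at hsa
      have h10 : |u ((i : ℝ) / M) - tri (M * s)| ≤
          |u ((i : ℝ) / M) - u s| + |u s - tri (M * s)| := abs_sub_le _ _ _
      rw [abs_sub_comm] at hi3
      linarith
    exact mem_biUnion (Finset.mem_coe.2 (Finset.mem_range.2 hiM)) (hc i s (a + b) hi1 hi2 h8)
  have hvol : volume {s : ℝ | s ∈ Icc (0 : ℝ) 1 ∧ |u s - hw D k s| ≤ a} ≤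
      ENNReal.ofReal (2 * (a + b)) := by
    refine (measure_mono hsub).trans ((measure_biUnion_finset_le _ _).trans ?_)
    have h1 : ∀ i ∈ Finset.range M, volume (Icc (c i - (a + b) / M) (c i + (a + b) / M)) =
        ENNReal.ofReal (2 * (a + b) / M) := by
      intro i _
      rw [Real.volume_Icc]
      congr 1
      ring
    rw [Finset.sum_congr rfl h1, Finset.sum_const, Finset.card_range, nsmul_eq_mul,
      ← ENNReal.ofReal_natCast, ← ENNReal.ofReal_mul (Nat.cast_nonneg M)]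
    apply ENNReal.ofReal_le_ofReal
    rw [mul_div_cancel₀ _ hM'.ne']
  exact ENNReal.toReal_le_of_le_ofReal (by positivity) hvol

end Pool.Agent.Lib.MP5bcdfb.VV
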