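import Pool.Agent.Lib.MP_5bcdfb_an.VV.Spec

/-!
# MP_5bcdfb, module WKL: the weak `ℓ_1` bound for the scalar functionals
-/

set_option autoImplicit false

namespace Pool.Agent.Lib.MP5bcdfb.VV

open MeasureTheory Set Filter Topology
open Pool.Agent.Lib.MP5bcdfb.TS

/-- a Bonferroni inequality -/
theorem WKLM.bonf (μ : Measure ℝ) [IsFiniteMeasure μ] (A : ℕ → Set ℝ)
    (hA : ∀ k, MeasurableSet (A k)) (c : ℝ) (i : ℕ)
    (hc : ∀ (a : ℕ) (s : Finset ℕ), (∀ x ∈ s, i ≤ x) → (∀ x ∈ s, x < a) →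
      ∑ j ∈ s, μ.real (A j ∩ A a) ≤ c) (T : Finset ℕ) :
    (∀ k ∈ T, i ≤ k) → ∑ k ∈ T, μ.real (A k) ≤ μ.real (⋃ k ∈ T, A k) + T.card * c := by
  refine Finset.induction_on_max T ?_ ?_
  · intro _; simp
  · intro a s has ih hT
    have hs : ∀ k ∈ s, i ≤ k := fun k hk => hT k (Finset.mem_insert_of_mem hk)
    have hna : a ∉ s := fun h => lt_irrefl _ (has a h)
    rw [Finset.sum_insert hna, Finset.card_insert_of_notMem hna]
    have h1 := ih hs
    have hmeas : MeasurableSet (⋃ k ∈ s, A k) :=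
      Finset.measurableSet_biUnion s (fun k _ => hA k)
    have h2 : μ.real (A a ∪ ⋃ k ∈ s, A k) + μ.real (A a ∩ ⋃ k ∈ s, A k)
        = μ.real (A a) + μ.real (⋃ k ∈ s, A k) := measureReal_union_add_inter hmeas
        (measure_ne_top μ _) (measure_ne_top μ _)
    have h3 : μ.real (A a ∩ ⋃ k ∈ s, A k) ≤ c := by
      have h4 : (A a ∩ ⋃ k ∈ s, A k) = ⋃ k ∈ s, (A k ∩ A a) := by
        ext x
        simp only [Set.mem_inter_iff, Set.mem_iUnion]
        constructor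
        · rintro ⟨h5, k, hk, h6⟩
          exact ⟨k, hk, h6, h5⟩
        · rintro ⟨k, hk, h6, h5⟩
          exact ⟨h5, k, hk, h6⟩
      rw [h4]
      exact (measureReal_biUnion_finset_le s _).trans (hc a s hs has)
    have h5 : (⋃ k ∈ insert a s, A k) = A a ∪ ⋃ k ∈ s, A k := Finset.set_biUnion_insert a s A
    rw [h5]
    push_cast
    linarith

/-- geometric sums over finite sets of large indices -/
theorem WKLM.geo (D i : ℕ) (hD : 24 ≤ D) (s : Finset ℕ) (hs : ∀ x ∈ s, i ≤ x) :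
    ∑ j ∈ s, 6 / (D : ℝ) ^ (j + 1) ≤ 12 / (D : ℝ) ^ (i + 1) := by
  have hD' : (24 : ℝ) ≤ D := by exact_mod_cast hD
  have hD0 : (0 : ℝ) < D := by linarith
  have hr0 : (0 : ℝ) ≤ 1 / (D : ℝ) := by positivity
  have hr1 : 1 / (D : ℝ) ≤ 1 / 2 := by
    rw [div_le_div_iff₀ hD0 (by norm_num)]; linarith
  have hsub : s ⊆ Finset.Ico i (s.sup id + 1) := by
    intro x hx
    rw [Finset.mem_Ico]
    refine ⟨hs x hx, Nat.lt_succ_of_le ?_⟩
    exact Finset.le_sup (f := id) hx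
  have h1 : ∑ j ∈ s, (1 / (D : ℝ)) ^ j ≤ (1 / (D : ℝ)) ^ i / (1 - 1 / (D : ℝ)) :=
    (Finset.sum_le_sum_of_subset_of_nonneg hsub (fun j _ _ => by positivity)).trans
      (geom_sum_Ico_le_of_lt_one hr0 (by linarith))
  have h2 : (1 / (D : ℝ)) ^ i / (1 - 1 / (D : ℝ)) ≤ 2 * (1 / (D : ℝ)) ^ i := by
    rw [div_le_iff₀ (by linarith)]
    have h3 : (0 : ℝ) ≤ (1 / (D : ℝ)) ^ i := by positivity
    nlinarith
  have h3 : ∑ j ∈ s, 6 / (D : ℝ) ^ (j + 1) = (6 / (D : ℝ)) * ∑ j ∈ s, (1 / (D : ℝ)) ^ j := by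
    rw [Finset.mul_sum]
    refine Finset.sum_congr rfl (fun j _ => ?_)
    rw [pow_succ, one_div, inv_pow]
    field_simp
  have h4 : 12 / (D : ℝ) ^ (i + 1) = (6 / (D : ℝ)) * (2 * (1 / (D : ℝ)) ^ i) := by
    rw [pow_succ, one_div, inv_pow]
    field_simp
    norm_num
  rw [h3, h4]
  exact mul_le_mul_of_nonneg_left (h1.trans h2) (by positivity)

/-- at most `2^(i+1)` large indices with large values -/
theorem WKLM.card (hBAS : SpecBAS) (hOVL : SpecOVL) (D i : ℕ) (u : ℝ → ℝ) (hD : 24 ≤ D)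
    (hu : Continuous u) (T : Finset ℕ) (hT : ∀ k ∈ T, i ≤ k)
    (hV : ∀ k ∈ T, (1 / 2 : ℝ) ^ i < Vu D k u) : T.card ≤ 2 ^ (i + 1) := by
  have hD2 : 2 ≤ D := by omega
  have hD' : (24 : ℝ) ≤ D := by exact_mod_cast hD
  have hD0 : (0 : ℝ) < D := by linarith
  have hDinv : 1 / (D : ℝ) ≤ 1 / 24 := by
    rw [div_le_div_iff₀ hD0 (by norm_num)]; linarith
  set μ : Measure ℝ := volume.restrict (Icc (0 : ℝ) 1) with hμ
  have hμ1 : μ Set.univ = 1 := by
    rw [hμ, Measure.restrict_apply_univ, Real.volume_Icc]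
    norm_num
  have : IsFiniteMeasure μ := ⟨by rw [hμ1]; exact ENNReal.one_lt_top⟩
  set A : ℕ → Set ℝ := fun k => {s : ℝ | |u s - hw D k s| ≤ 1 / (D : ℝ) ^ (k + 1)} with hAdef
  have hA : ∀ k, MeasurableSet (A k) := by
    intro k
    have hk : Continuous (hw D k) := (hBAS D k hD2).1
    exact (isClosed_le ((hu.sub hk).abs) continuous_const).measurableSet
  have hreal : ∀ B : Set ℝ, MeasurableSet B →
      μ.real B = (volume {s : ℝ | s ∈ Icc (0 : ℝ) 1 ∧ s ∈ B}).toReal := by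
    intro B hB
    rw [Measure.real, hμ, Measure.restrict_apply hB]
    have h1 : B ∩ Icc (0 : ℝ) 1 = {s : ℝ | s ∈ Icc (0 : ℝ) 1 ∧ s ∈ B} := by
      ext s; exact ⟨fun h => ⟨h.2, h.1⟩, fun h => ⟨h.2, h.1⟩⟩
    rw [h1]
  have hlow : ∀ k ∈ T, (1 / 2 : ℝ) ^ i ≤ μ.real (A k) := by
    intro k hk
    rw [hreal (A k) (hA k)]
    exact (hV k hk).le.trans ((hBAS D k hD2).2.2.2.1 u hu).2.2
  have hpair : ∀ j k, j < k → μ.real (A j ∩ A k) ≤ 6 / (D : ℝ) ^ (j + 1) := by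
    intro j k hjk
    have hj : Continuous (hw D j) := (hBAS D j hD2).1
    have hk : Continuous (hw D k) := (hBAS D k hD2).1
    have hB : MeasurableSet {s : ℝ | |hw D j s - hw D k s| ≤ 2 / (D : ℝ) ^ (j + 1)} :=
      (isClosed_le ((hj.sub hk).abs) continuous_const).measurableSet
    have hsub : A j ∩ A k ⊆ {s : ℝ | |hw D j s - hw D k s| ≤ 2 / (D : ℝ) ^ (j + 1)} := by
      rintro s ⟨h1, h2⟩
      have h1' : |u s - hw D j s| ≤ 1 / (D : ℝ) ^ (j + 1) := h1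
      have h2' : |u s - hw D k s| ≤ 1 / (D : ℝ) ^ (k + 1) := h2
      have h3 : 1 / (D : ℝ) ^ (k + 1) ≤ 1 / (D : ℝ) ^ (j + 1) := by
        apply one_div_le_one_div_of_le (by positivity)
        exact pow_le_pow_right₀ (by linarith) (by omega)
      show |hw D j s - hw D k s| ≤ 2 / (D : ℝ) ^ (j + 1)
      have h4 : 2 / (D : ℝ) ^ (j + 1) = 1 / (D : ℝ) ^ (j + 1) + 1 / (D : ℝ) ^ (j + 1) := by ring
      rw [h4]
      rw [abs_le] at h1' h2' ⊢
      constructor <;> linarith [h1'.1, h1'.2, h2'.1, h2'.2]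
    refine (measureReal_mono hsub).trans ?_
    rw [hreal _ hB]
    exact hOVL D j k hD2 hjk
  have hc : ∀ (a : ℕ) (s : Finset ℕ), (∀ x ∈ s, i ≤ x) → (∀ x ∈ s, x < a) →
      ∑ j ∈ s, μ.real (A j ∩ A a) ≤ 12 / (D : ℝ) ^ (i + 1) := by
    intro a s hs hsa
    exact (Finset.sum_le_sum (fun j hj => hpair j a (hsa j hj))).trans (WKLM.geo D i hD s hs)
  have hb := WKLM.bonf μ A hA (12 / (D : ℝ) ^ (i + 1)) i hc T hT
  have hU : μ.real (⋃ k ∈ T, A k) ≤ 1 := by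
    refine (measureReal_mono (Set.subset_univ _)).trans ?_
    rw [Measure.real, hμ1]
    simp
  have hsum : (T.card : ℝ) * (1 / 2 : ℝ) ^ i ≤ ∑ k ∈ T, μ.real (A k) := by
    rw [← nsmul_eq_mul]
    exact Finset.card_nsmul_le_sum T _ _ hlow
  have hcc : 12 / (D : ℝ) ^ (i + 1) ≤ (1 / 2 : ℝ) ^ i / 2 := by
    have h1 : 12 / (D : ℝ) ^ (i + 1) = 12 * (1 / (D : ℝ)) * (1 / (D : ℝ)) ^ i := by
      rw [pow_succ, one_div, inv_pow]
      field_simp
    rw [h1]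
    have h2 : (1 / (D : ℝ)) ^ i ≤ (1 / 2 : ℝ) ^ i :=
      pow_le_pow_left₀ (by positivity) (by linarith) i
    have h3 : (0 : ℝ) ≤ (1 / (D : ℝ)) ^ i := by positivity
    have h4 : 12 * (1 / (D : ℝ)) * (1 / (D : ℝ)) ^ i ≤ (1 / 2) * (1 / (D : ℝ)) ^ i :=
      mul_le_mul_of_nonneg_right (by linarith) h3
    linarith
  have hfin : (T.card : ℝ) * (1 / 2 : ℝ) ^ i ≤ 2 := by
    have h0 : (0 : ℝ) ≤ (T.card : ℝ) := Nat.cast_nonneg _
    have h1 := mul_le_mul_of_nonneg_left hcc h0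
    linarith
  have h2 : (T.card : ℝ) ≤ 2 ^ (i + 1) := by
    have h3 : (1 / 2 : ℝ) ^ i * 2 ^ i = 1 := by
      rw [← mul_pow]; norm_num
    have h4 : (0 : ℝ) ≤ (2 : ℝ) ^ i := by positivity
    have h5 := mul_le_mul_of_nonneg_right hfin h4
    rw [mul_assoc, h3, mul_one] at h5
    rw [pow_succ]
    linarith
  exact_mod_cast h2

theorem specWKL (hBAS : SpecBAS) (hOVL : SpecOVL) : SpecWKL := by
  intro D i u hD hu
  have key : ∀ T : Finset ℕ, (∀ k ∈ T, (1 / 2 : ℝ) ^ i < Vu D k u) → T.card ≤ 2 ^ (i + 2) := by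
    intro T hT
    have h1 : (T.filter (fun k => i ≤ k)).card ≤ 2 ^ (i + 1) :=
      WKLM.card hBAS hOVL D i u hD hu _ (fun k hk => (Finset.mem_filter.1 hk).2)
        (fun k hk => hT k (Finset.mem_filter.1 hk).1)
    have h2 : (T.filter (fun k => ¬ i ≤ k)).card ≤ i := by
      have h3 : T.filter (fun k => ¬ i ≤ k) ⊆ Finset.range i := by
        intro k hk
        rw [Finset.mem_range]
        exact not_le.1 (Finset.mem_filter.1 hk).2
      exact (Finset.card_le_card h3).trans (Finset.card_range i).le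
    have h3 : (T.filter (fun k => i ≤ k)).card + (T.filter (fun k => ¬ i ≤ k)).card = T.card :=
      Finset.card_filter_add_card_filter_not _
    have h4 : i < 2 ^ i := Nat.lt_two_pow_self
    have h5 : 2 ^ (i + 1) = 2 * 2 ^ i := by ring
    have h6 : 2 ^ (i + 2) = 4 * 2 ^ i := by ring
    omega
  have hfin : {k : ℕ | (1 / 2 : ℝ) ^ i < Vu D k u}.Finite := by
    by_contra hinf
    obtain ⟨T, hT, hcard⟩ := Set.Infinite.exists_subset_card_eq hinf (2 ^ (i + 2) + 1)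
    have h1 := key T (fun k hk => hT hk)
    omega
  refine ⟨hfin, ?_⟩
  rw [Set.ncard_eq_toFinset_card _ hfin]
  exact key _ (fun k hk => (Set.Finite.mem_toFinset hfin).1 hk)

end Pool.Agent.Lib.MP5bcdfb.VV
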