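import Pool.Agent.Lib.MP_5bcdfb_an.TS.Sph
import Pool.Agent.Lib.MP_5bcdfb_an.VV.Spec
import Pool.Agent.Lib.MP_5bcdfb_an.VV.TRI
import Pool.Agent.Lib.MP_5bcdfb_an.VV.VOL
import Pool.Agent.Lib.MP_5bcdfb_an.VV.BAS
import Pool.Agent.Lib.MP_5bcdfb_an.VV.OVL
import Pool.Agent.Lib.MP_5bcdfb_an.VV.WKL
import Pool.Agent.Lib.MP_5bcdfb_an.VV.PWR
import Pool.Agent.Lib.MP_5bcdfb_an.VV.SML
import Pool.Agent.Lib.MP_5bcdfb_an.VV.CNS
import Pool.Agent.Lib.MP_5bcdfb_an.VV.RES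
import Pool.Agent.Lib.MP_5bcdfb_an.VV.GEN
import Pool.Agent.Lib.MP_5bcdfb_an.VV.SCV
import Pool.Agent.Lib.MP_5bcdfb_an.VV.SL1
import Pool.Agent.Lib.MP_5bcdfb_an.VV.SPH

/-!
# MP_5bcdfb, VV: assembly
-/

set_option autoImplicit false

namespace Pool.Agent.Lib.MP5bcdfb.VV

open MeasureTheory Set Filter Topology
open Pool.Agent.Lib.MP5bcdfb.TS

theorem allVOL : SpecVOL := specVOL specTRI

theorem allBAS : SpecBAS := specBAS specTRI

theorem allCNS : SpecCNS :=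
  specCNS allBAS (specWKL allBAS (specOVL allVOL allBAS)) specPWR (specSML allVOL allBAS)

theorem allGEN : SpecGEN := specGEN specTRI allBAS allCNS (specRES allVOL allBAS)

theorem allSCV : SpecSCV := specSCV allFWD

theorem sph_neg (n : ℕ) (hn : 2 ≤ n) (p : ENNReal) [Fact (1 ≤ p)] (hp : 1 < p) (hp' : p ≠ ⊤) (X : Type)
    [NormedAddCommGroup X] [NormedSpace ℝ X] (T : lp (fun _ : ℕ => ℝ) p →L[ℝ] X) (c₀ : ℝ) (hc : 0 < c₀)
    (hT : ∀ k : ℕ, c₀ ≤ ‖T (lp.single p k (1 : ℝ))‖) :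
    ∃ V : C(Sph n, ℝ) → X, ValX V ∧ ContX V ∧ ¬ UCX V := by
  obtain ⟨γ, c, h1, h2⟩ := specSPH n hn
  exact allGEN (Metric.sphere (0 : EuclideanSpace ℝ (Fin n)) 1) γ c h1 h2 p hp hp' X T c₀ hc hT

theorem sph_lp (n : ℕ) (hn : 2 ≤ n) (p : ENNReal) [Fact (1 ≤ p)] (hp' : p ≠ ⊤) :
    (∀ V : C(Sph n, ℝ) → lp (fun _ : ℕ => ℝ) p, ValX V → ContX V → UCX V) ↔ p = 1 := by
  constructor
  · intro h
    by_contra hp
    have hp1 : 1 < p := lt_of_le_of_ne Fact.out (Ne.symm hp)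
    obtain ⟨V, a1, a2, a3⟩ := sph_neg n hn p hp1 hp' (lp (fun _ : ℕ => ℝ) p)
      (ContinuousLinearMap.id ℝ (lp (fun _ : ℕ => ℝ) p)) 1 one_pos (by
        intro k
        have h0 : (0 : ENNReal) < p := lt_of_lt_of_le zero_lt_one Fact.out
        rw [ContinuousLinearMap.id_apply, lp.norm_single h0]
        simp)
    exact a3 (h V a1 a2)
  · intro h V hV hc
    subst h
    exact allSCV (Sph n) (lp (fun _ : ℕ => ℝ) 1) specSL1 V hV hc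

end Pool.Agent.Lib.MP5bcdfb.VV
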