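import Pool.Agent.Lib.MP_5bcdfb_an.VV.Spec

/-!
# MP_5bcdfb, VV: module RES (resonance)
-/

set_option autoImplicit false

namespace Pool.Agent.Lib.MP5bcdfb.VV

open MeasureTheory Set Filter Topology
open Pool.Agent.Lib.MP5bcdfb.TS

namespace RESM

theorem Vu_self (D k : ℕ) : Vu D k (hw D k) = 1 := by
  simp [Vu]

theorem Vu_shift (D k : ℕ) (hD : 24 ≤ D) :
    Vu D k (fun s => hw D k s + 2 / (D : ℝ) ^ (k + 1)) = 0 := by
  have hD0 : (0 : ℝ) < (D : ℝ) := by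
    have : (24 : ℝ) ≤ (D : ℝ) := by exact_mod_cast hD
    linarith
  have e : ∀ s : ℝ, max 0 (1 - |hw D k s + 2 / (D : ℝ) ^ (k + 1) - hw D k s| * (D : ℝ) ^ (k + 1))
      = 0 := by
    intro s
    have h1 : hw D k s + 2 / (D : ℝ) ^ (k + 1) - hw D k s = 2 / (D : ℝ) ^ (k + 1) := by ring
    have hp : (0 : ℝ) < (D : ℝ) ^ (k + 1) := by positivity
    rw [h1, abs_of_pos (by positivity), div_mul_cancel₀ _ hp.ne']
    norm_num
  unfold Vu
  simp only [e]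
  exact intervalIntegral.integral_zero

theorem high (hVOL : SpecVOL) (hBAS : SpecBAS) {D j k : ℕ} (hD : 24 ≤ D) (hjk : k < j)
    {u : ℝ → ℝ} (hu : Continuous u)
    (hL : ∀ s s', |u s - u s'| ≤ (D : ℝ) ^ ((k + 1) ^ 2) * |s - s'|) :
    0 ≤ Vu D j u ∧ Vu D j u ≤ 4 / (D : ℝ) ^ (j + 1) := by
  have hD2 : 2 ≤ D := by omega
  have hD1 : (1 : ℝ) ≤ (D : ℝ) := by exact_mod_cast (by omega : 1 ≤ D)
  have hD0 : (0 : ℝ) < (D : ℝ) := by linarith
  obtain ⟨-, -, -, h4, -⟩ := hBAS D j hD2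
  obtain ⟨h0, -, hv⟩ := h4 u hu
  refine ⟨h0, hv.trans ?_⟩
  have hw : (0 : ℝ) ≤ 1 / (D : ℝ) ^ (j + 1) := by positivity
  have h := hVOL D j u (1 / (D : ℝ) ^ (j + 1)) (1 / (D : ℝ) ^ (j + 1)) hD2 hu hw hw ?_
  · refine h.trans (le_of_eq ?_)
    ring
  · intro s s' _ _ _ _ hss
    refine (hL s s').trans ?_
    have hexp : (j + 1) + (k + 1) ^ 2 ≤ (j + 1) ^ 2 := by
      obtain ⟨m, rfl⟩ : ∃ m, j = k + 1 + m := ⟨j - (k + 1), by omega⟩
      nlinarith
    have h1 : (D : ℝ) ^ ((k + 1) ^ 2) * |s - s'| ≤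
        (D : ℝ) ^ ((k + 1) ^ 2) * (1 / (D : ℝ) ^ ((j + 1) ^ 2)) :=
      mul_le_mul_of_nonneg_left hss (by positivity)
    refine h1.trans ?_
    rw [mul_one_div, div_le_div_iff₀ (by positivity) (by positivity), one_mul, ← pow_add]
    exact pow_le_pow_right₀ hD1 (by omega)

theorem low (hBAS : SpecBAS) {D j k : ℕ} (hD : 24 ≤ D) (hjk : j < k) :
    |Vu D j (hw D k) - Vu D j (fun s => hw D k s + 2 / (D : ℝ) ^ (k + 1))| ≤
      2 / (D : ℝ) * (1 / 2) ^ (k - 1 - j) := by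
  have hD2 : 2 ≤ D := by omega
  have hD24 : (24 : ℝ) ≤ (D : ℝ) := by exact_mod_cast hD
  have hD0 : (0 : ℝ) < (D : ℝ) := by linarith
  obtain ⟨-, -, -, -, h5⟩ := hBAS D j hD2
  obtain ⟨hc, -, -, -, -⟩ := hBAS D k hD2
  have h := h5 (hw D k) (fun s => hw D k s + 2 / (D : ℝ) ^ (k + 1)) (2 / (D : ℝ) ^ (k + 1)) hc
    (hc.add continuous_const) (fun s _ _ => by
      have e : hw D k s - (hw D k s + 2 / (D : ℝ) ^ (k + 1)) = -(2 / (D : ℝ) ^ (k + 1)) := by ring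
      rw [e, abs_neg, abs_of_pos (by positivity)])
  refine h.trans ?_
  obtain ⟨m, rfl⟩ : ∃ m, k = j + 1 + m := ⟨k - (j + 1), by omega⟩
  have e1 : j + 1 + m - 1 - j = m := by omega
  rw [e1]
  have e2 : (D : ℝ) ^ (j + 1) * (2 / (D : ℝ) ^ (j + 1 + m + 1)) = 2 / (D : ℝ) * (1 / (D : ℝ)) ^ m := by
    rw [one_div, inv_pow]
    field_simp
    ring
  rw [e2]
  refine mul_le_mul_of_nonneg_left ?_ (by positivity)
  refine pow_le_pow_left₀ (by positivity) ?_ m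
  exact one_div_le_one_div_of_le (by norm_num) (by linarith)

theorem term (hVOL : SpecVOL) (hBAS : SpecBAS) {D j k : ℕ} (hD : 24 ≤ D) (hjk : j ≠ k) :
    |Vu D j (hw D k) - Vu D j (fun s => hw D k s + 2 / (D : ℝ) ^ (k + 1))| ≤
      4 / (D : ℝ) * (1 / 2) ^ j + (if j < k then 2 / (D : ℝ) * (1 / 2) ^ (k - 1 - j) else 0) := by
  have hD2 : 2 ≤ D := by omega
  have hD24 : (24 : ℝ) ≤ (D : ℝ) := by exact_mod_cast hD
  have hD0 : (0 : ℝ) < (D : ℝ) := by linarith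
  rcases lt_or_gt_of_ne hjk with h | h
  · rw [if_pos h]
    have h1 := low hBAS hD h
    have h2 : (0 : ℝ) ≤ 4 / (D : ℝ) * (1 / 2) ^ j := by positivity
    linarith
  · rw [if_neg (by omega), add_zero]
    obtain ⟨hc, -, hL, -, -⟩ := hBAS D k hD2
    have hA := high hVOL hBAS hD h hc hL
    have hB := high hVOL hBAS hD h (u := fun s => hw D k s + 2 / (D : ℝ) ^ (k + 1))
      (hc.add continuous_const) (fun s s' => by
        have e : hw D k s + 2 / (D : ℝ) ^ (k + 1) - (hw D k s' + 2 / (D : ℝ) ^ (k + 1)) =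
            hw D k s - hw D k s' := by ring
        rw [e]
        exact hL s s')
    have h3 : |Vu D j (hw D k) - Vu D j (fun s => hw D k s + 2 / (D : ℝ) ^ (k + 1))| ≤
        4 / (D : ℝ) ^ (j + 1) := by
      rw [abs_le]
      constructor
      · linarith [hA.1, hB.2]
      · linarith [hA.2, hB.1]
    refine h3.trans ?_
    have e2 : 4 / (D : ℝ) ^ (j + 1) = 4 / (D : ℝ) * (1 / (D : ℝ)) ^ j := by
      rw [one_div, inv_pow, pow_succ]
      field_simp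
    rw [e2]
    refine mul_le_mul_of_nonneg_left ?_ (by positivity)
    refine pow_le_pow_left₀ (by positivity) ?_ j
    exact one_div_le_one_div_of_le (by norm_num) (by linarith)

theorem sum_low (D k N : ℕ) (hD : 24 ≤ D) :
    ∑ j ∈ Finset.range N, (if j < k then 2 / (D : ℝ) * (1 / 2) ^ (k - 1 - j) else 0) ≤
      4 / (D : ℝ) := by
  have hD24 : (24 : ℝ) ≤ (D : ℝ) := by exact_mod_cast hD
  have hD0 : (0 : ℝ) < (D : ℝ) := by linarith
  rw [← Finset.sum_filter]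
  have h1 : ∑ j ∈ (Finset.range N).filter (fun j => j < k),
      2 / (D : ℝ) * (1 / 2) ^ (k - 1 - j) ≤
      ∑ j ∈ Finset.range k, 2 / (D : ℝ) * (1 / 2 : ℝ) ^ (k - 1 - j) := by
    refine Finset.sum_le_sum_of_subset_of_nonneg ?_ (fun _ _ _ => by positivity)
    intro j hj
    rw [Finset.mem_filter] at hj
    exact Finset.mem_range.2 hj.2
  refine h1.trans ?_
  rw [Finset.sum_range_reflect (fun j => 2 / (D : ℝ) * (1 / 2 : ℝ) ^ j) k, ← Finset.mul_sum]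
  have h2 := sum_geometric_two_le k
  have h3 : 2 / (D : ℝ) * ∑ i ∈ Finset.range k, (1 / 2 : ℝ) ^ i ≤ 2 / (D : ℝ) * 2 :=
    mul_le_mul_of_nonneg_left h2 (by positivity)
  refine h3.trans (le_of_eq ?_)
  ring

end RESM

open RESM in
theorem specRES (hVOL : SpecVOL) (hBAS : SpecBAS) : SpecRES := by
  intro D k hD
  refine ⟨Vu_self D k, Vu_shift D k hD, fun N => ?_⟩
  have hD24 : (24 : ℝ) ≤ (D : ℝ) := by exact_mod_cast hD
  have hD0 : (0 : ℝ) < (D : ℝ) := by linarith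
  have h1 : ∑ j ∈ (Finset.range N).erase k,
      |Vu D j (hw D k) - Vu D j (fun s => hw D k s + 2 / (D : ℝ) ^ (k + 1))| ≤
      ∑ j ∈ (Finset.range N).erase k, (4 / (D : ℝ) * (1 / 2) ^ j +
        (if j < k then 2 / (D : ℝ) * (1 / 2) ^ (k - 1 - j) else 0)) :=
    Finset.sum_le_sum fun j hj => term hVOL hBAS hD (Finset.ne_of_mem_erase hj)
  have h2 : ∑ j ∈ (Finset.range N).erase k, (4 / (D : ℝ) * (1 / 2) ^ j +
        (if j < k then 2 / (D : ℝ) * (1 / 2) ^ (k - 1 - j) else 0)) ≤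
      ∑ j ∈ Finset.range N, (4 / (D : ℝ) * (1 / 2) ^ j +
        (if j < k then 2 / (D : ℝ) * (1 / 2) ^ (k - 1 - j) else 0)) := by
    refine Finset.sum_le_sum_of_subset_of_nonneg (Finset.erase_subset _ _) (fun j _ _ => ?_)
    split_ifs <;> positivity
  have h3 := sum_low D k N hD
  have h4 : ∑ j ∈ Finset.range N, 4 / (D : ℝ) * (1 / 2 : ℝ) ^ j ≤ 8 / (D : ℝ) := by
    rw [← Finset.mul_sum]
    have h5 := sum_geometric_two_le N
    have h6 : 4 / (D : ℝ) * ∑ i ∈ Finset.range N, (1 / 2 : ℝ) ^ i ≤ 4 / (D : ℝ) * 2 :=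
      mul_le_mul_of_nonneg_left h5 (by positivity)
    refine h6.trans (le_of_eq ?_)
    ring
  have h2' := h1.trans h2
  rw [Finset.sum_add_distrib] at h2'
  have h7 : 8 / (D : ℝ) + 4 / (D : ℝ) ≤ 16 / (D : ℝ) := by
    rw [← add_div]
    exact div_le_div_of_nonneg_right (by norm_num) hD0.le
  linarith

end Pool.Agent.Lib.MP5bcdfb.VV
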